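import Mathlib
import Pool.Agent.Q82.BB.Stm

/-!
Project BB, JOB TS: all time derivatives.
-/

set_option autoImplicit false

open MeasureTheory Filter Topology Set

namespace Pool.Agent.Q82.BB

/-- The tower of the time derivatives. -/
noncomputable def ts_W (w w1 : ℝ → ℝ → ℂ) : ℕ → ℝ → ℝ → ℂ
  | 0 => w
  | 1 => w1
  | (j + 2) => fun ξ τ => (mu ξ : ℂ) * ts_W w w1 j ξ τ -
      (ξ : ℂ) ^ 2 * ∑ i : Fin (j + 1), (j.choose (i : ℕ) : ℂ) *
        cv (ts_W w w1 (i : ℕ)) (ts_W w w1 (j - (i : ℕ))) ξ τ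
termination_by j => j
decreasing_by
  all_goals omega

theorem ts_W_zero (w w1 : ℝ → ℝ → ℂ) : ts_W w w1 0 = w := by
  rw [ts_W]

theorem ts_W_one (w w1 : ℝ → ℝ → ℂ) : ts_W w w1 1 = w1 := by
  rw [ts_W]

theorem ts_W_succ (w w1 : ℝ → ℝ → ℂ) (j : ℕ) (ξ τ : ℝ) :
    ts_W w w1 (j + 2) ξ τ = (mu ξ : ℂ) * ts_W w w1 j ξ τ -
      (ξ : ℂ) ^ 2 * ∑ i ∈ Finset.range (j + 1), (j.choose i : ℂ) *
        cv (ts_W w w1 i) (ts_W w w1 (j - i)) ξ τ := by
  rw [ts_W, Finset.sum_range]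

theorem ts_exp (c x : ℝ) (hc : 0 < c) (hx : 0 ≤ x) :
    (1 + x) ^ 4 * Real.exp (-(c * x)) ≤ (1 + 8 / c) ^ 4 * Real.exp (-(c / 2 * x)) := by
  have h1 : 1 + x ≤ (1 + 8 / c) * Real.exp (c / 8 * x) := by
    have h2 : c / 8 * x + 1 ≤ Real.exp (c / 8 * x) := Real.add_one_le_exp _
    have h3 : 0 < 8 / c := by positivity
    have h4 : 0 ≤ c / 8 * x := by positivity
    calc 1 + x = 1 + 8 / c * (c / 8 * x) := by field_simp
      _ ≤ (1 + 8 / c) * (c / 8 * x + 1) := by nlinarith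
      _ ≤ (1 + 8 / c) * Real.exp (c / 8 * x) := by
        apply mul_le_mul_of_nonneg_left h2
        positivity
  have h5 : (1 + x) ^ 4 ≤ ((1 + 8 / c) * Real.exp (c / 8 * x)) ^ 4 :=
    pow_le_pow_left₀ (by positivity) h1 4
  have h6 : (Real.exp (c / 8 * x)) ^ 4 = Real.exp (c / 2 * x) := by
    rw [← Real.exp_nat_mul]
    congr 1
    push_cast
    ring
  calc (1 + x) ^ 4 * Real.exp (-(c * x))
      ≤ ((1 + 8 / c) * Real.exp (c / 8 * x)) ^ 4 * Real.exp (-(c * x)) :=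
        mul_le_mul_of_nonneg_right h5 (Real.exp_pos _).le
    _ = (1 + 8 / c) ^ 4 * (Real.exp (c / 2 * x) * Real.exp (-(c * x))) := by
        rw [mul_pow, h6]
        ring
    _ = (1 + 8 / c) ^ 4 * Real.exp (-(c / 2 * x)) := by
        rw [← Real.exp_add]
        congr 2
        ring

/-- Multiplication by functions of polynomial growth. -/
theorem ts_good_mul {T : ℝ} {G : ℝ → ℝ → ℂ} (hG : Good T G) (q : ℝ → ℂ) (hq : Continuous q)
    (hb : ∀ ξ, ‖q ξ‖ ≤ (1 + |ξ|) ^ 4) : Good T (fun ξ τ => q ξ * G ξ τ) := by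
  refine ⟨?_, ?_⟩
  · exact ((hq.comp continuous_fst).continuousOn).mul hG.1
  · intro a b ha hbT
    obtain ⟨c, C, hc, h⟩ := hG.2 a b ha hbT
    refine ⟨c / 2, |C| * (1 + 8 / c) ^ 4, by positivity, fun ξ τ hτ => ?_⟩
    have h1 := h ξ τ hτ
    have h2 := ts_exp c |ξ| hc (abs_nonneg ξ)
    have h3 : C * Real.exp (-(c * |ξ|)) ≤ |C| * Real.exp (-(c * |ξ|)) :=
      mul_le_mul_of_nonneg_right (le_abs_self C) (Real.exp_pos _).le
    rw [norm_mul]
    calc ‖q ξ‖ * ‖G ξ τ‖ ≤ (1 + |ξ|) ^ 4 * (|C| * Real.exp (-(c * |ξ|))) :=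
          mul_le_mul (hb ξ) (h1.trans h3) (norm_nonneg _) (by positivity)
      _ = |C| * ((1 + |ξ|) ^ 4 * Real.exp (-(c * |ξ|))) := by ring
      _ ≤ |C| * ((1 + 8 / c) ^ 4 * Real.exp (-(c / 2 * |ξ|))) :=
          mul_le_mul_of_nonneg_left h2 (abs_nonneg C)
      _ = |C| * (1 + 8 / c) ^ 4 * Real.exp (-(c / 2 * |ξ|)) := by ring

theorem ts_good_add {T : ℝ} {G H : ℝ → ℝ → ℂ} (hG : Good T G) (hH : Good T H) :
    Good T (fun ξ τ => G ξ τ + H ξ τ) := by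
  refine ⟨hG.1.add hH.1, ?_⟩
  intro a b ha hbT
  obtain ⟨c, C, hc, h⟩ := hG.2 a b ha hbT
  obtain ⟨c', C', hc', h'⟩ := hH.2 a b ha hbT
  refine ⟨min c c', |C| + |C'|, lt_min hc hc', fun ξ τ hτ => ?_⟩
  have e1 : Real.exp (-(c * |ξ|)) ≤ Real.exp (-(min c c' * |ξ|)) := by
    apply Real.exp_le_exp.2
    have := mul_le_mul_of_nonneg_right (min_le_left c c') (abs_nonneg ξ)
    linarith
  have e2 : Real.exp (-(c' * |ξ|)) ≤ Real.exp (-(min c c' * |ξ|)) := by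
    apply Real.exp_le_exp.2
    have := mul_le_mul_of_nonneg_right (min_le_right c c') (abs_nonneg ξ)
    linarith
  have b1 : ‖G ξ τ‖ ≤ |C| * Real.exp (-(min c c' * |ξ|)) :=
    (h ξ τ hτ).trans ((mul_le_mul_of_nonneg_right (le_abs_self C) (Real.exp_pos _).le).trans
      (mul_le_mul_of_nonneg_left e1 (abs_nonneg C)))
  have b2 : ‖H ξ τ‖ ≤ |C'| * Real.exp (-(min c c' * |ξ|)) :=
    (h' ξ τ hτ).trans ((mul_le_mul_of_nonneg_right (le_abs_self C') (Real.exp_pos _).le).trans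
      (mul_le_mul_of_nonneg_left e2 (abs_nonneg C')))
  calc ‖G ξ τ + H ξ τ‖ ≤ ‖G ξ τ‖ + ‖H ξ τ‖ := norm_add_le _ _
    _ ≤ |C| * Real.exp (-(min c c' * |ξ|)) + |C'| * Real.exp (-(min c c' * |ξ|)) := add_le_add b1 b2
    _ = (|C| + |C'|) * Real.exp (-(min c c' * |ξ|)) := by ring

theorem ts_good_zero (T : ℝ) : Good T (fun _ _ => 0) := by
  refine ⟨continuousOn_const, ?_⟩
  intro a b _ _
  refine ⟨1, 0, one_pos, fun ξ τ _ => ?_⟩
  simp

theorem ts_good_const {T : ℝ} {G : ℝ → ℝ → ℂ} (hG : Good T G) (k : ℂ) :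
    Good T (fun ξ τ => k * G ξ τ) := by
  refine ⟨continuousOn_const.mul hG.1, ?_⟩
  intro a b ha hbT
  obtain ⟨c, C, hc, h⟩ := hG.2 a b ha hbT
  refine ⟨c, ‖k‖ * C, hc, fun ξ τ hτ => ?_⟩
  rw [norm_mul, mul_assoc]
  exact mul_le_mul_of_nonneg_left (h ξ τ hτ) (norm_nonneg k)

theorem ts_good_sum {T : ℝ} {ι : Type} (s : Finset ι) (F : ι → ℝ → ℝ → ℂ)
    (hF : ∀ i ∈ s, Good T (F i)) : Good T (fun ξ τ => ∑ i ∈ s, F i ξ τ) := by
  classical
  induction s using Finset.induction_on with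
  | empty => simpa using ts_good_zero T
  | insert a s ha ih =>
    have h := ts_good_add (hF a (Finset.mem_insert_self a s))
      (ih fun i hi => hF i (Finset.mem_insert_of_mem hi))
    have e : (fun ξ τ : ℝ => ∑ i ∈ insert a s, F i ξ τ) =
        fun ξ τ => F a ξ τ + ∑ i ∈ s, F i ξ τ := by
      funext ξ τ
      rw [Finset.sum_insert ha]
    rw [e]
    exact h

theorem ts_mu_bound (ξ : ℝ) : ‖(mu ξ : ℂ)‖ ≤ (1 + |ξ|) ^ 4 := by
  rw [Complex.norm_real, Real.norm_eq_abs, mu]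
  have h0 : 0 ≤ |ξ| := abs_nonneg ξ
  have h1 : ξ ^ 4 = |ξ| ^ 4 := by
    rw [← abs_pow, abs_of_nonneg (by positivity)]
  have h2 : ξ ^ 2 = |ξ| ^ 2 := by
    rw [sq_abs]
  rw [h1, h2, abs_le]
  have h3 : (0 : ℝ) ≤ |ξ| ^ 3 := by positivity
  have h4 : (0 : ℝ) ≤ |ξ| ^ 4 := by positivity
  have h5 : (0 : ℝ) ≤ |ξ| ^ 2 := by positivity
  constructor <;> nlinarith

theorem ts_sq_bound (ξ : ℝ) : ‖-((ξ : ℂ) ^ 2)‖ ≤ (1 + |ξ|) ^ 4 := by
  rw [norm_neg, norm_pow, Complex.norm_real, Real.norm_eq_abs]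
  have h0 : 0 ≤ |ξ| := abs_nonneg ξ
  have h3 : (0 : ℝ) ≤ |ξ| ^ 3 := by positivity
  have h4 : (0 : ℝ) ≤ |ξ| ^ 4 := by positivity
  have h5 : (0 : ℝ) ≤ |ξ| ^ 2 := by positivity
  nlinarith

theorem ts_good_W (h1 : S_CG) {T : ℝ} (hT : 0 < T) {w w1 : ℝ → ℝ → ℂ} (hw : Good T w)
    (hw1 : Good T w1) (j : ℕ) : Good T (ts_W w w1 j) := by
  induction j using Nat.strong_induction_on with
  | _ j ih =>
    match j, ih with
    | 0, _ => rw [ts_W_zero]; exact hw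
    | 1, _ => rw [ts_W_one]; exact hw1
    | (j + 2), ih =>
      have e : ts_W w w1 (j + 2) = fun ξ τ => (mu ξ : ℂ) * ts_W w w1 j ξ τ +
          (-((ξ : ℂ) ^ 2)) * ∑ i ∈ Finset.range (j + 1), (j.choose i : ℂ) *
            cv (ts_W w w1 i) (ts_W w w1 (j - i)) ξ τ := by
        funext ξ τ
        rw [ts_W_succ]
        ring
      rw [e]
      apply ts_good_add
      · apply ts_good_mul (ih j (by omega)) (fun ξ => (mu ξ : ℂ))
        · unfold mu
          fun_prop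
        · exact ts_mu_bound
      · apply ts_good_mul _ (fun ξ => -((ξ : ℂ) ^ 2))
        · fun_prop
        · exact ts_sq_bound
        · apply ts_good_sum
          intro i hi
          rw [Finset.mem_range] at hi
          exact ts_good_const (h1 T _ _ hT (ih i (by omega)) (ih (j - i) (by omega))).1 _

theorem ts_pascal (F : ℕ → ℕ → ℂ) (j : ℕ) :
    ∑ i ∈ Finset.range (j + 1), (j.choose i : ℂ) * (F (i + 1) (j - i) + F i (j - i + 1)) =
      ∑ i ∈ Finset.range (j + 1 + 1), ((j + 1).choose i : ℂ) * F i (j + 1 - i) := by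
  have h := Finset.sum_antidiagonal_choose_succ_mul F j
  rw [Finset.Nat.sum_antidiagonal_eq_sum_range_succ_mk,
    Finset.Nat.sum_antidiagonal_eq_sum_range_succ_mk,
    Finset.Nat.sum_antidiagonal_eq_sum_range_succ_mk] at h
  simp only at h
  rw [Nat.succ_eq_add_one, Nat.succ_eq_add_one] at h
  rw [h, ← Finset.sum_add_distrib]
  refine Finset.sum_congr rfl fun i hi => ?_
  rw [Finset.mem_range] at hi
  rw [Nat.choose_symm (by omega : i ≤ j)]
  ring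

/-- JOB TS. -/
theorem ts (h1 : S_CG) : S_TS := by
  intro T w w1 hT hw hw1 hd hd1
  refine ⟨ts_W w w1, ts_W_zero w w1, ts_W_one w w1, ts_good_W h1 hT hw hw1, ?_,
    fun j ξ τ => ts_W_succ w w1 j ξ τ⟩
  intro j
  induction j using Nat.strong_induction_on with
  | _ j ih =>
    match j, ih with
    | 0, _ =>
      intro ξ τ hτ
      rw [ts_W_one, ts_W_zero]
      exact hd ξ τ hτ
    | 1, _ =>
      intro ξ τ hτ
      have e := ts_W_succ w w1 0 ξ τ
      simp only [zero_add, Finset.range_one, Finset.sum_singleton, Nat.choose_self, Nat.cast_one,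
        one_mul, Nat.sub_zero, ts_W_zero] at e
      show HasDerivAt (fun τ => ts_W w w1 1 ξ τ) (ts_W w w1 2 ξ τ) τ
      rw [e, ts_W_one]
      exact hd1 ξ τ hτ
    | (j + 2), ih =>
      intro ξ τ hτ
      have e : (fun τ => ts_W w w1 (j + 2) ξ τ) = fun τ => (mu ξ : ℂ) * ts_W w w1 j ξ τ -
          (ξ : ℂ) ^ 2 * ∑ i ∈ Finset.range (j + 1), (j.choose i : ℂ) *
            cv (ts_W w w1 i) (ts_W w w1 (j - i)) ξ τ := by
        funext τ
        rw [ts_W_succ]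
      have e2 : ts_W w w1 (j + 2 + 1) ξ τ = (mu ξ : ℂ) * ts_W w w1 (j + 1) ξ τ -
          (ξ : ℂ) ^ 2 * ∑ i ∈ Finset.range (j + 1), (j.choose i : ℂ) *
            (cv (ts_W w w1 (i + 1)) (ts_W w w1 (j - i)) ξ τ +
              cv (ts_W w w1 i) (ts_W w w1 (j - i + 1)) ξ τ) := by
        have e3 := ts_W_succ w w1 (j + 1) ξ τ
        rw [ts_pascal (fun a b => cv (ts_W w w1 a) (ts_W w w1 b) ξ τ) j]
        exact e3
      rw [e, e2]
      apply HasDerivAt.sub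
      · exact (ih j (by omega) ξ τ hτ).const_mul _
      · apply HasDerivAt.const_mul
        apply HasDerivAt.fun_sum
        intro i hi
        rw [Finset.mem_range] at hi
        apply HasDerivAt.const_mul
        exact (h1 T _ _ hT (ts_good_W h1 hT hw hw1 i) (ts_good_W h1 hT hw hw1 (j - i))).2 _ _
          (ts_good_W h1 hT hw hw1 (i + 1)) (ts_good_W h1 hT hw hw1 (j - i + 1))
          (ih i (by omega)) (ih (j - i) (by omega)) ξ τ hτ

end Pool.Agent.Q82.BB
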