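import Pool.Agent.Q61.MH.Stm

set_option autoImplicit false

/-!
# Project MH, job CASEA: wide steps, `2 y + 1 ≤ 3 (k - y)`
-/

namespace Pool.Agent.Q217.MH_CASEA

open Pool.Agent.Q61.MH Finset

/-- the tangent line of `t ^ r` at `a` -/
theorem tang {r a t : ℝ} (hr : 1 ≤ r) (ha : 0 < a) (ht : 0 ≤ t) :
    a ^ (r - 1) * (a + r * (t - a)) ≤ t ^ r := by
  have h1 : -1 ≤ t / a - 1 := by
    have : 0 ≤ t / a := by positivity
    linarith
  have h2 := one_add_mul_self_le_rpow_one_add h1 hr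
  have h3 : 1 + (t / a - 1) = t / a := by ring
  rw [h3, Real.div_rpow ht ha.le] at h2
  have h4 : 0 < a ^ r := Real.rpow_pos_of_pos ha r
  rw [le_div_iff₀ h4] at h2
  have h5 : a ^ r = a ^ (r - 1) * a := by
    rw [← Real.rpow_add_one ha.ne']; ring_nf
  calc a ^ (r - 1) * (a + r * (t - a)) = (1 + r * (t / a - 1)) * a ^ r := by
        rw [h5]; field_simp
    _ ≤ t ^ r := h2

theorem sumtang {r a : ℝ} (hr : 1 ≤ r) (ha : 0 < a) (c n : ℕ) :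
    a ^ (r - 1) * (n * a + r * (n * c + n * (n + 1) / 2 - n * a)) ≤
      ∑ i ∈ range n, (((c + i : ℕ) : ℝ) + 1) ^ r := by
  induction n with
  | zero => simp
  | succ n ih =>
    rw [sum_range_succ]
    have h := tang hr ha (t := ((c + n : ℕ) : ℝ) + 1) (by positivity)
    have e : a ^ (r - 1) * (((n + 1 : ℕ) : ℝ) * a + r * (((n + 1 : ℕ) : ℝ) * c +
        ((n + 1 : ℕ) : ℝ) * (((n + 1 : ℕ) : ℝ) + 1) / 2 - ((n + 1 : ℕ) : ℝ) * a)) =
        a ^ (r - 1) * (n * a + r * (n * c + n * (n + 1) / 2 - n * a)) +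
        a ^ (r - 1) * (a + r * ((((c + n : ℕ) : ℝ) + 1) - a)) := by
      push_cast; ring
    rw [e]
    exact add_le_add ih h

/-- the sum of the numbers below -/
theorem rest {r : ℝ} (hr : 1 ≤ r) (y m : ℕ) :
    ((2 * (y : ℝ) + 1) / 3) ^ (r - 1) * (m * ((2 * (y : ℝ) + 1) / 3) -
      r * (m * (3 * m - (2 * (y : ℝ) + 1)) / 6)) ≤ ∑ i ∈ range y, ((i : ℝ) + 1) ^ r := by
  have hσ : (0 : ℝ) < (2 * (y : ℝ) + 1) / 3 := by positivity
  have hX : (0 : ℝ) < ((2 * (y : ℝ) + 1) / 3) ^ (r - 1) := Real.rpow_pos_of_pos hσ _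
  rcases le_or_gt m y with h | h
  · obtain ⟨d, rfl⟩ := Nat.exists_eq_add_of_le' h
    rw [sum_range_add]
    have h1 : 0 ≤ ∑ i ∈ range d, ((i : ℝ) + 1) ^ r :=
      sum_nonneg fun i _ => by positivity
    have h2 := sumtang hr hσ d m
    have e : (m : ℝ) * ((2 * ((d + m : ℕ) : ℝ) + 1) / 3) +
        r * ((m : ℝ) * d + m * (m + 1) / 2 - m * ((2 * ((d + m : ℕ) : ℝ) + 1) / 3)) =
        m * ((2 * ((d + m : ℕ) : ℝ) + 1) / 3) -
        r * (m * (3 * m - (2 * ((d + m : ℕ) : ℝ) + 1)) / 6) := by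
      push_cast; ring
    rw [e] at h2
    linarith
  · obtain ⟨d, rfl⟩ := Nat.exists_eq_add_of_lt h
    have h2 := sumtang hr hσ 0 y
    have h3 : ((2 * (y : ℝ) + 1) / 3) ^ (r - 1) * ((2 * (y : ℝ) + 1) / 3 +
        r * (0 - (2 * (y : ℝ) + 1) / 3)) ≤ 0 := by
      have := tang hr hσ (t := 0) le_rfl
      rwa [Real.zero_rpow (by linarith)] at this
    have h4 : ∑ i ∈ range y, (((0 + i : ℕ) : ℝ) + 1) ^ r = ∑ i ∈ range y, ((i : ℝ) + 1) ^ r := by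
      refine sum_congr rfl fun i _ => ?_
      rw [zero_add]
    rw [h4] at h2
    refine le_trans ?_ h2
    have h5 : ((d : ℝ) + 1) * (((2 * (y : ℝ) + 1) / 3) ^ (r - 1) * ((2 * (y : ℝ) + 1) / 3 +
        r * (0 - (2 * (y : ℝ) + 1) / 3))) ≤ 0 :=
      mul_nonpos_of_nonneg_of_nonpos (by positivity) h3
    have h6 : 0 ≤ ((2 * (y : ℝ) + 1) / 3) ^ (r - 1) * (r * (((d : ℝ) + 1) * d / 2)) := by
      positivity
    have e : ((2 * (y : ℝ) + 1) / 3) ^ (r - 1) * (((y : ℕ) : ℝ) * ((2 * (y : ℝ) + 1) / 3) +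
        r * (((y : ℕ) : ℝ) * ((0 : ℕ) : ℝ) + y * (y + 1) / 2 - y * ((2 * (y : ℝ) + 1) / 3))) =
        ((2 * (y : ℝ) + 1) / 3) ^ (r - 1) * (((y + d + 1 : ℕ) : ℝ) * ((2 * (y : ℝ) + 1) / 3) -
          r * (((y + d + 1 : ℕ) : ℝ) * (3 * ((y + d + 1 : ℕ) : ℝ) - (2 * (y : ℝ) + 1)) / 6)) +
        ((2 * (y : ℝ) + 1) / 3) ^ (r - 1) * (r * (((d : ℝ) + 1) * d / 2)) -
        ((d : ℝ) + 1) * (((2 * (y : ℝ) + 1) / 3) ^ (r - 1) * ((2 * (y : ℝ) + 1) / 3 +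
          r * (0 - (2 * (y : ℝ) + 1) / 3))) := by
      push_cast; ring
    linarith

theorem casea : S_casea := by
  intro r y k hr hyk h3
  obtain ⟨m, rfl⟩ := Nat.exists_eq_add_of_le hyk.le
  have hm : 0 < m := by omega
  have hm' : (0 : ℝ) < m := by exact_mod_cast hm
  have h3' : 2 * (y : ℝ) + 1 ≤ 3 * m := by
    have := h3
    push_cast at this
    linarith
  have hσ : (0 : ℝ) < (2 * (y : ℝ) + 1) / 3 := by positivity
  have h2σ : (0 : ℝ) < 2 * ((2 * (y : ℝ) + 1) / 3) := by positivity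
  have hr0 : 0 < r := by linarith
  -- the sum
  have hS : S (y + m) r = ∑ i ∈ range y, ((i : ℝ) + 1) ^ r +
      ∑ i ∈ range m, (((y + i : ℕ) : ℝ) + 1) ^ r := by
    unfold S
    rw [sum_range_add]
  have hSpos : 0 < S (y + m) r := by
    unfold S
    refine sum_pos (fun i _ => by positivity) ⟨0, ?_⟩
    simp
    omega
  have h1 := rest hr y m
  have h2 := sumtang hr h2σ y m
  have hX : ((2 * (y : ℝ) + 1) / 3) ^ (r - 1) ≤ (2 * ((2 * (y : ℝ) + 1) / 3)) ^ (r - 1) :=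
    Real.rpow_le_rpow hσ.le (by linarith) (by linarith)
  have e1 : ((2 * (y : ℝ) + 1) / 3) ^ r =
      ((2 * (y : ℝ) + 1) / 3) ^ (r - 1) * ((2 * (y : ℝ) + 1) / 3) := by
    rw [← Real.rpow_add_one hσ.ne']; ring_nf
  have e2 : (2 * ((2 * (y : ℝ) + 1) / 3)) ^ r =
      (2 * ((2 * (y : ℝ) + 1) / 3)) ^ (r - 1) * (2 * ((2 * (y : ℝ) + 1) / 3)) := by
    rw [← Real.rpow_add_one h2σ.ne']; ring_nf
  have key : m * (((2 * (y : ℝ) + 1) / 3) ^ r + (2 * ((2 * (y : ℝ) + 1) / 3)) ^ r) ≤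
      S (y + m) r := by
    rw [hS, e1, e2]
    refine le_trans ?_ (add_le_add h1 h2)
    have h4 : 0 ≤ ((2 * ((2 * (y : ℝ) + 1) / 3)) ^ (r - 1) - ((2 * (y : ℝ) + 1) / 3) ^ (r - 1)) *
        (r * (m * (3 * m - (2 * (y : ℝ) + 1)) / 6)) := by
      refine mul_nonneg (by linarith) (mul_nonneg hr0.le ?_)
      refine div_nonneg (mul_nonneg hm'.le (by linarith)) (by norm_num)
    nlinarith [h4]
  -- the values
  have hg : g 2 r = 3 ^ r / (1 + 2 ^ r) := by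
    unfold g S
    rw [sum_range_succ, sum_range_succ, sum_range_zero]
    norm_num
  have hG : G y (y + m) r = (2 * (y : ℝ) + 1) ^ r * m / S (y + m) r := by
    unfold G
    push_cast
    ring_nf
  rw [hg, hG, div_le_div_iff₀ hSpos (by positivity)]
  have e3 : (2 * (y : ℝ) + 1) ^ r = 3 ^ r * ((2 * (y : ℝ) + 1) / 3) ^ r := by
    rw [← Real.mul_rpow (by norm_num) hσ.le]
    congr 1
    ring
  have e4 : (2 * ((2 * (y : ℝ) + 1) / 3)) ^ r = 2 ^ r * ((2 * (y : ℝ) + 1) / 3) ^ r :=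
    Real.mul_rpow (by norm_num) hσ.le
  rw [e4] at key
  rw [e3]
  have h5 : (0 : ℝ) < 3 ^ r := by positivity
  calc 3 ^ r * ((2 * (y : ℝ) + 1) / 3) ^ r * m * (1 + 2 ^ r) =
      3 ^ r * (m * (((2 * (y : ℝ) + 1) / 3) ^ r + 2 ^ r * ((2 * (y : ℝ) + 1) / 3) ^ r)) := by ring
    _ ≤ 3 ^ r * S (y + m) r := mul_le_mul_of_nonneg_left key h5.le

end Pool.Agent.Q217.MH_CASEA
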