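import Mathlib
import Pool.Agent.Q88.MT.Stm

/-!
Project MT, JOB ADJ: the adjoint.
-/

set_option autoImplicit false

open Set Filter Topology

noncomputable section

namespace Pool.Agent.Q88.MT

/-- The Hilbert space of square summable functions. -/
abbrev adjE (n : ℕ) := lp (fun _ : X n => ℂ) 2

theorem adj_mem {n : ℕ} (u : X n → ℂ) : Memℓp u 2 ↔ Sq u := by
  rw [memℓp_gen_iff (by norm_num)]
  simp [Sq]

theorem adj_norm {n : ℕ} (f : adjE n) : ‖f‖ = nn (f : X n → ℂ) := by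
  rw [lp.norm_eq_tsum_rpow (by norm_num), nn, Real.sqrt_eq_rpow]
  simp

/-- The closed subspace. -/
def adjV (n : ℕ) (b : Bool) : Submodule ℂ (adjE n) where
  carrier := {f | ∀ (π : Equiv.Perm (Fin n)) (x : X n), f (fun j => x (π j)) = chi b π * f x}
  add_mem' := by
    intro f g hf hg π x
    rw [lp.coeFn_add, Pi.add_apply, Pi.add_apply, hf π x, hg π x, mul_add]
  zero_mem' := by
    intro π x
    simp
  smul_mem' := by
    intro c f hf π x
    rw [lp.coeFn_smul, Pi.smul_apply, Pi.smul_apply, hf π x]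
    simp only [smul_eq_mul]
    ring

theorem adj_mem_V {n : ℕ} {b : Bool} (f : adjE n) : f ∈ adjV n b ↔ (f : X n → ℂ) ∈ M n b := by
  constructor
  · intro hf
    exact ⟨(adj_mem _).1 f.2, hf⟩
  · intro hf
    exact hf.2

theorem adj_closed (n : ℕ) (b : Bool) : IsClosed (adjV n b : Set (adjE n)) := by
  have hc : ∀ x : X n, Continuous fun f : adjE n => (f : X n → ℂ) x := fun x =>
    (continuous_apply x).comp (lp.uniformContinuous_coe (E := fun _ : X n => ℂ) (p := 2)).continuous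
  have e : (adjV n b : Set (adjE n)) = ⋂ (π : Equiv.Perm (Fin n)), ⋂ (x : X n),
      {f : adjE n | (f : X n → ℂ) (fun j => x (π j)) = chi b π * (f : X n → ℂ) x} := by
    ext f
    simp only [mem_iInter, mem_setOf_eq]
    exact Iff.rfl
  rw [e]
  refine isClosed_iInter fun π => isClosed_iInter fun x => ?_
  exact isClosed_eq (hc _) (continuous_const.mul (hc _))

instance adj_complete (n : ℕ) (b : Bool) : CompleteSpace (adjV n b) :=
  (adj_closed n b).completeSpace_coe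

theorem adj_T_zero {n : ℕ} (k : Fin n → ℤ) : T k (fun _ => 0) = fun _ => 0 := by
  funext y
  simp [T, W]

/-- The restriction of `T k`. -/
def adjT (h1 : S_bdd) (h2 : S_inv) (n : ℕ) (k : Fin n → ℤ) (b : Bool) :
    adjV n b →L[ℂ] adjV n b :=
  LinearMap.mkContinuous
    { toFun := fun f => ⟨⟨T k (f.1 : X n → ℂ),
        (adj_mem _).2 ((h2 n k b).1 _ ((adj_mem_V f.1).1 f.2)).1⟩,
        (adj_mem_V _).2 ((h2 n k b).1 _ ((adj_mem_V f.1).1 f.2))⟩
      map_add' := by
        intro f g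
        apply Subtype.ext
        apply lp.ext
        have e := (h2 n k b).2.1 (f.1 : X n → ℂ) (g.1 : X n → ℂ) 1
        simp only [one_mul] at e
        exact e
      map_smul' := by
        intro c f
        apply Subtype.ext
        apply lp.ext
        have e := (h2 n k b).2.1 (fun _ => 0) (f.1 : X n → ℂ) c
        rw [adj_T_zero] at e
        simp only [zero_add] at e
        exact e } 1 (by
      intro f
      rw [one_mul]
      show ‖(⟨T k (f.1 : X n → ℂ), _⟩ : adjE n)‖ ≤ ‖f.1‖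
      rw [adj_norm, adj_norm]
      exact (h1 n k _ ((adj_mem _).1 f.1.2)).2)

theorem adjT_apply (h1 : S_bdd) (h2 : S_inv) (n : ℕ) (k : Fin n → ℤ) (b : Bool) (f : adjV n b) :
    ((adjT h1 h2 n k b f).1 : X n → ℂ) = T k (f.1 : X n → ℂ) := rfl

/-- The substitution `y = x + k`. -/
def adjEquiv {n : ℕ} (k : Fin n → ℤ) :
    {y : X n | ∀ j, 0 ≤ (y j : ℤ) - k j} ≃ {x : X n | ∀ j, 0 ≤ (x j : ℤ) - (-k j)} where
  toFun y := ⟨fun j => ((y.1 j : ℤ) - k j).toNat, fun j => by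
    have := y.2 j
    rw [Int.toNat_of_nonneg this]
    omega⟩
  invFun x := ⟨fun j => ((x.1 j : ℤ) - (-k j)).toNat, fun j => by
    have := x.2 j
    rw [Int.toNat_of_nonneg this]
    omega⟩
  left_inv y := by
    apply Subtype.ext
    funext j
    have := y.2 j
    show ((((y.1 j : ℤ) - k j).toNat : ℤ) - (-k j)).toNat = y.1 j
    rw [Int.toNat_of_nonneg this]
    omega
  right_inv x := by
    apply Subtype.ext
    funext j
    have := x.2 j
    show ((((x.1 j : ℤ) - (-k j)).toNat : ℤ) - k j).toNat = x.1 j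
    rw [Int.toNat_of_nonneg this]
    omega

theorem adj_W_eq {n : ℕ} (k : Fin n → ℤ) (u : X n → ℂ) :
    W k u = {y : X n | ∀ j, 0 ≤ (y j : ℤ) - k j}.indicator
      (fun y => u (fun j => ((y j : ℤ) - k j).toNat)) := by
  classical
  funext y
  by_cases h : ∀ j, 0 ≤ (y j : ℤ) - k j
  · rw [W, if_pos h, Set.indicator_of_mem (show y ∈ {y : X n | ∀ j, 0 ≤ (y j : ℤ) - k j} from h)]
  · rw [W, if_neg h,
      Set.indicator_of_notMem (show y ∉ {y : X n | ∀ j, 0 ≤ (y j : ℤ) - k j} from h)]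

theorem adj_W_sq {n : ℕ} (k : Fin n → ℤ) (u : X n → ℂ) (hu : Sq u) : Sq (W k u) := by
  unfold Sq at hu ⊢
  have h1 : Summable fun y : {y : X n | ∀ j, 0 ≤ (y j : ℤ) - k j} =>
      ‖u (fun j => ((y.1 j : ℤ) - k j).toNat)‖ ^ 2 := by
    have h2 := hu.comp_injective (i := fun y : {y : X n | ∀ j, 0 ≤ (y j : ℤ) - k j} =>
      ((adjEquiv k y).1 : X n)) (fun y y' h => (adjEquiv k).injective (Subtype.ext h))
    exact h2
  rw [← Function.comp_def (fun y : X n => ‖u (fun j => ((y j : ℤ) - k j).toNat)‖ ^ 2)] at h1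
  rw [summable_subtype_iff_indicator] at h1
  refine h1.congr fun y => ?_
  rw [adj_W_eq]
  by_cases h : y ∈ {y : X n | ∀ j, 0 ≤ (y j : ℤ) - k j}
  · rw [Set.indicator_of_mem h, Set.indicator_of_mem h]
  · rw [Set.indicator_of_notMem h, Set.indicator_of_notMem h]
    simp

theorem adj_summable {n : ℕ} (u v : X n → ℂ) (hu : Sq u) (hv : Sq v) :
    Summable fun y => (starRingEnd ℂ) (v y) * u y := by
  apply Summable.of_norm_bounded (g := fun y => ‖u y‖ ^ 2 + ‖v y‖ ^ 2) (Summable.add hu hv)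
  intro y
  rw [norm_mul, RCLike.norm_conj]
  nlinarith [sq_nonneg (‖u y‖ - ‖v y‖), sq_nonneg (‖u y‖), sq_nonneg (‖v y‖)]

theorem adj_W {n : ℕ} (k : Fin n → ℤ) (u v : X n → ℂ) :
    ∑' y, (starRingEnd ℂ) (v y) * W k u y =
      ∑' x, (starRingEnd ℂ) (W (fun j => - k j) v x) * u x := by
  have e1 : (fun y => (starRingEnd ℂ) (v y) * W k u y) =
      {y : X n | ∀ j, 0 ≤ (y j : ℤ) - k j}.indicator
        (fun y => (starRingEnd ℂ) (v y) * u (fun j => ((y j : ℤ) - k j).toNat)) := by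
    funext y
    rw [adj_W_eq]
    by_cases h : y ∈ {y : X n | ∀ j, 0 ≤ (y j : ℤ) - k j}
    · rw [Set.indicator_of_mem h, Set.indicator_of_mem h]
    · rw [Set.indicator_of_notMem h, Set.indicator_of_notMem h, mul_zero]
  have e2 : (fun x => (starRingEnd ℂ) (W (fun j => - k j) v x) * u x) =
      {x : X n | ∀ j, 0 ≤ (x j : ℤ) - (-k j)}.indicator
        (fun x => (starRingEnd ℂ) (v (fun j => ((x j : ℤ) - (-k j)).toNat)) * u x) := by
    funext x
    rw [adj_W_eq]
    by_cases h : x ∈ {x : X n | ∀ j, 0 ≤ (x j : ℤ) - (-k j)}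
    · rw [Set.indicator_of_mem h, Set.indicator_of_mem h]
    · rw [Set.indicator_of_notMem h, Set.indicator_of_notMem h, map_zero, zero_mul]
  rw [e1, e2, ← tsum_subtype, ← tsum_subtype, ← (adjEquiv k).tsum_eq]
  refine tsum_congr fun y => ?_
  have h3 : (fun j => ((((adjEquiv k y).1 j : ℕ) : ℤ) - (-k j)).toNat) = y.1 := by
    have h4 := congrArg Subtype.val ((adjEquiv k).left_inv y)
    exact h4
  rw [h3]
  rfl

theorem adj_T {n : ℕ} (k : Fin n → ℤ) (u v : X n → ℂ) (hu : Sq u) (hv : Sq v) :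
    ∑' y, (starRingEnd ℂ) (v y) * T k u y =
      ∑' x, (starRingEnd ℂ) (T (fun j => - k j) v x) * u x := by
  have e1 : ∀ y, (starRingEnd ℂ) (v y) * T k u y = 1 / (n.factorial : ℂ) *
      ∑ π : Equiv.Perm (Fin n), (starRingEnd ℂ) (v y) * W (fun j => k (π j)) u y := by
    intro y
    rw [T, ← Finset.mul_sum]
    ring
  have e2 : ∀ x, (starRingEnd ℂ) (T (fun j => - k j) v x) * u x = 1 / (n.factorial : ℂ) *
      ∑ π : Equiv.Perm (Fin n), (starRingEnd ℂ) (W (fun j => - k (π j)) v x) * u x := by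
    intro x
    rw [T, map_mul, map_sum, ← Finset.sum_mul, map_div₀, map_one, map_natCast]
    ring
  rw [tsum_congr e1, tsum_congr e2, tsum_mul_left, tsum_mul_left]
  congr 1
  rw [Summable.tsum_finsetSum (fun π _ => adj_summable _ _ (adj_W_sq _ u hu) hv),
    Summable.tsum_finsetSum (fun π _ => adj_summable _ _ hu (adj_W_sq _ v hv))]
  exact Finset.sum_congr rfl fun π _ => adj_W _ u v

/-- `T k - l` on the subspace. -/
def adjA (h1 : S_bdd) (h2 : S_inv) (n : ℕ) (k : Fin n → ℤ) (b : Bool) (l : ℂ) :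
    adjV n b →L[ℂ] adjV n b :=
  adjT h1 h2 n k b - l • ContinuousLinearMap.id ℂ (adjV n b)

theorem adjA_apply (h1 : S_bdd) (h2 : S_inv) (n : ℕ) (k : Fin n → ℤ) (b : Bool) (l : ℂ)
    (f : adjV n b) :
    ((adjA h1 h2 n k b l f).1 : X n → ℂ) = fun y => T k (f.1 : X n → ℂ) y - l * f.1 y := rfl

theorem adj_notMem_Sp (h1 : S_bdd) (h2 : S_inv) (n : ℕ) (k : Fin n → ℤ) (b : Bool) (l : ℂ) :
    l ∉ Sp b k ↔ Function.Bijective (adjA h1 h2 n k b l) := by
  rw [Sp, mem_setOf_eq, not_not, Function.bijective_iff_existsUnique]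
  constructor
  · intro h v
    obtain ⟨u, ⟨hu, hu2⟩, huniq⟩ := h (v.1 : X n → ℂ) ((adj_mem_V v.1).1 v.2)
    refine ⟨⟨⟨u, (adj_mem u).2 hu.1⟩, (adj_mem_V _).2 hu⟩, ?_, ?_⟩
    · apply Subtype.ext
      apply lp.ext
      exact hu2
    · intro w hw
      apply Subtype.ext
      apply lp.ext
      refine huniq (w.1 : X n → ℂ) ⟨(adj_mem_V w.1).1 w.2, ?_⟩
      rw [← hw]
      rfl
  · intro h v hv
    obtain ⟨u, hu, huniq⟩ := h ⟨⟨v, (adj_mem v).2 hv.1⟩, (adj_mem_V _).2 hv⟩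
    refine ⟨(u.1 : X n → ℂ), ⟨(adj_mem_V u.1).1 u.2, ?_⟩, ?_⟩
    · have h3 := congrArg (fun f : adjV n b => (f.1 : X n → ℂ)) hu
      exact h3
    · rintro w ⟨hw, hw2⟩
      have h3 := huniq ⟨⟨w, (adj_mem w).2 hw.1⟩, (adj_mem_V _).2 hw⟩ (by
        apply Subtype.ext
        apply lp.ext
        exact hw2)
      have h4 := congrArg (fun f : adjV n b => (f.1 : X n → ℂ)) h3
      exact h4

theorem adj_adjoint (h1 : S_bdd) (h2 : S_inv) (n : ℕ) (k : Fin n → ℤ) (b : Bool) (l : ℂ) :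
    ContinuousLinearMap.adjoint (adjA h1 h2 n k b l) =
      adjA h1 h2 n (fun j => - k j) b ((starRingEnd ℂ) l) := by
  symm
  rw [ContinuousLinearMap.eq_adjoint_iff]
  intro v u
  rw [Submodule.coe_inner, Submodule.coe_inner, lp.inner_eq_tsum, lp.inner_eq_tsum]
  have hu : Sq (u.1 : X n → ℂ) := (adj_mem _).1 u.1.2
  have hv : Sq (v.1 : X n → ℂ) := (adj_mem _).1 v.1.2
  have e1 : ∀ y : X n, inner ℂ (((adjA h1 h2 n (fun j => - k j) b ((starRingEnd ℂ) l) v).1 :
      X n → ℂ) y) ((u.1 : X n → ℂ) y) =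
      (starRingEnd ℂ) (T (fun j => - k j) (v.1 : X n → ℂ) y) * (u.1 : X n → ℂ) y -
        l * ((starRingEnd ℂ) ((v.1 : X n → ℂ) y) * (u.1 : X n → ℂ) y) := by
    intro y
    rw [adjA_apply, RCLike.inner_apply, map_sub, map_mul, Complex.conj_conj]
    ring
  have e2 : ∀ y : X n, inner ℂ ((v.1 : X n → ℂ) y) (((adjA h1 h2 n k b l u).1 : X n → ℂ) y) =
      (starRingEnd ℂ) ((v.1 : X n → ℂ) y) * T k (u.1 : X n → ℂ) y -
        l * ((starRingEnd ℂ) ((v.1 : X n → ℂ) y) * (u.1 : X n → ℂ) y) := by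
    intro y
    rw [adjA_apply, RCLike.inner_apply]
    ring
  rw [tsum_congr e1, tsum_congr e2]
  have s0 := (adj_summable (u.1 : X n → ℂ) (v.1 : X n → ℂ) hu hv).mul_left l
  have s1 := adj_summable (u.1 : X n → ℂ) (T (fun j => - k j) (v.1 : X n → ℂ)) hu
    (h1 n _ _ hv).1
  have s2 := adj_summable (T k (u.1 : X n → ℂ)) (v.1 : X n → ℂ) (h1 n k _ hu).1 hv
  rw [s1.tsum_sub s0, s2.tsum_sub s0, adj_T k _ _ hu hv]

/-- JOB ADJ. -/
theorem adj (h : S_bas) (h1 : S_bdd) (h2 : S_inv) : S_adj := by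
  intro n k b l hl
  rw [adj_notMem_Sp h1 h2] at hl ⊢
  rw [← adj_adjoint]
  let e : adjV n b ≃L[ℂ] adjV n b := ContinuousLinearEquiv.ofBijective (adjA h1 h2 n k b l)
    (LinearMap.ker_eq_bot.2 hl.1) (LinearMap.range_eq_top.2 hl.2)
  have he : (e : adjV n b →L[ℂ] adjV n b) = adjA h1 h2 n k b l :=
    ContinuousLinearEquiv.coe_ofBijective _ _ _
  have c1 : (adjA h1 h2 n k b l).comp (e.symm : adjV n b →L[ℂ] adjV n b) =
      ContinuousLinearMap.id ℂ _ := by
    rw [← he]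
    ext1 x
    simp
  have c2 : (e.symm : adjV n b →L[ℂ] adjV n b).comp (adjA h1 h2 n k b l) =
      ContinuousLinearMap.id ℂ _ := by
    rw [← he]
    ext1 x
    simp
  have d1 := congrArg ContinuousLinearMap.adjoint c1
  have d2 := congrArg ContinuousLinearMap.adjoint c2
  rw [ContinuousLinearMap.adjoint_comp, ContinuousLinearMap.adjoint_id] at d1 d2
  refine Function.bijective_iff_has_inverse.2
    ⟨ContinuousLinearMap.adjoint (e.symm : adjV n b →L[ℂ] adjV n b), fun x => ?_, fun x => ?_⟩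
  · exact congrArg (fun f : adjV n b →L[ℂ] adjV n b => f x) d1
  · exact congrArg (fun f : adjV n b →L[ℂ] adjV n b => f x) d2

end Pool.Agent.Q88.MT
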