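import Pool.Agent.Q61.ND.Calc

/-!
# Project ND (helper61): job IBP, integration by parts in the strip
-/

set_option autoImplicit false

open MeasureTheory Set Filter Topology Real

noncomputable section

namespace Pool.Agent.Q217.NDIBP

open Pool.Agent.Q61.AD (P Q Per dt dx dy lap Tst D)
open Pool.Agent.Q61.ND
open Pool.Agent.Q61.ND.Calc

theorem mSp (S : ℝ) : MeasurableSet (Sp S) := measurableSet_Ioi.prod measurableSet_Ioo

theorem oSp (S : ℝ) : IsOpen (Sp S) := isOpen_Ioi.prod isOpen_Ioo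

/-- continuous functions supported in `a ≤ s ≤ b` are integrable on the strip -/
theorem integrable_Sp {F : P → ℝ} (hF : Continuous F) {a b : ℝ}
    (hs : ∀ p : P, F p ≠ 0 → p.1 ∈ Icc a b) (S : ℝ) : IntegrableOn F (Sp S) := by
  have h1 : IntegrableOn F (Icc a b ×ˢ Icc (-π) π) :=
    hF.continuousOn.integrableOn_compact (isCompact_Icc.prod isCompact_Icc)
  refine h1.of_forall_sdiff_eq_zero (mSp S) fun p hp => ?_
  by_contra h0
  exact hp.2 ⟨hs p h0, Ioo_subset_Icc_self hp.1.2⟩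

theorem dx_supp {F : P → ℝ} {a b : ℝ} (hs : ∀ p : P, F p ≠ 0 → p.1 ∈ Icc a b) (p : P)
    (hp : dx F p ≠ 0 ∨ dy F p ≠ 0 ∨ lap F p ≠ 0) : p.1 ∈ Icc a b := by
  by_contra h0
  have hc : IsClosed {p : P | p.1 ∈ Icc a b} := isClosed_Icc.preimage continuous_fst
  have h1 := zero_off hc hs (x := p) h0
  rcases hp with h | h | h
  · exact h h1.1
  · exact h h1.2.1
  · exact h h1.2.2

theorem int_dx {F : P → ℝ} (hF : Sm F) {a b : ℝ} (ha : 21 < a)
    (hs : ∀ p : P, F p ≠ 0 → p.1 ∈ Icc a b) : ∫ p in Sp 21, dx F p = 0 := by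
  have hi : IntegrableOn (dx F) (Sp 21) := integrable_Sp (sm_dx hF).continuous
    (fun p hp => dx_supp hs p (Or.inl hp)) 21
  have e1 : ∫ p in Sp 21, dx F p =
      ∫ θ in Ioo (-π) π, ∫ s in Ioi (21 : ℝ), dx F (s, θ) := by
    have h1 : ∫ p in Sp 21, dx F p = ∫ q in Ioo (-π) π ×ˢ Ioi (21 : ℝ), dx F q.swap := by
      have h2 := setIntegral_prod_swap (μ := (volume : Measure ℝ)) (ν := (volume : Measure ℝ))
        (Ioi (21 : ℝ)) (Ioo (-π) π) (dx F)
      exact h2.symm
    rw [h1]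
    have h3 : IntegrableOn (fun q : ℝ × ℝ => dx F q.swap) (Ioo (-π) π ×ˢ Ioi (21 : ℝ))
        ((volume : Measure ℝ).prod volume) := by
      have h4 : Integrable (dx F) ((volume.restrict (Ioi (21 : ℝ))).prod
          (volume.restrict (Ioo (-π) π))) := by
        rw [Measure.prod_restrict]
        exact hi
      have h5 := h4.swap
      rw [Measure.prod_restrict] at h5
      exact h5
    exact setIntegral_prod (fun q : ℝ × ℝ => dx F q.swap) h3
  rw [e1]
  have e2 : ∀ θ : ℝ, ∫ s in Ioi (21 : ℝ), dx F (s, θ) = 0 := by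
    intro θ
    have h1 : ∀ s ∈ Ici (21 : ℝ), HasDerivAt (fun s => F (s, θ)) (dx F (s, θ)) s :=
      fun s _ => hdx hF (s, θ)
    have h2 : IntegrableOn (fun s => dx F (s, θ)) (Ioi (21 : ℝ)) := by
      have hc : Continuous fun s : ℝ => dx F (s, θ) :=
        (sm_dx hF).continuous.comp (by fun_prop)
      have h3 : IntegrableOn (fun s => dx F (s, θ)) (Icc a b) :=
        hc.continuousOn.integrableOn_compact isCompact_Icc
      refine h3.of_forall_sdiff_eq_zero measurableSet_Ioi fun s hs' => ?_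
      by_contra h0
      exact hs'.2 (dx_supp hs (s, θ) (Or.inl h0))
    have h3 : Tendsto (fun s => F (s, θ)) atTop (𝓝 0) := by
      refine tendsto_const_nhds.congr' ?_
      filter_upwards [eventually_gt_atTop b] with s hsb
      by_contra h0
      exact absurd (hs (s, θ) (Ne.symm h0)).2 (not_le.2 hsb)
    have h4 : F ((21 : ℝ), θ) = 0 := by
      by_contra h0
      exact absurd (hs _ h0).1 (not_le.2 ha)
    rw [integral_Ioi_of_hasDerivAt_of_tendsto' h1 h2 h3, h4, sub_zero]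
  simp only [e2, integral_zero]

theorem int_dy {F : P → ℝ} (hF : Sm F) {a b : ℝ}
    (hs : ∀ p : P, F p ≠ 0 → p.1 ∈ Icc a b) (hper : ∀ s, F (s, π) = F (s, -π)) :
    ∫ p in Sp 21, dy F p = 0 := by
  have hi : IntegrableOn (dy F) (Sp 21) := integrable_Sp (sm_dy hF).continuous
    (fun p hp => dx_supp hs p (Or.inr (Or.inl hp))) 21
  have e1 : ∫ p in Sp 21, dy F p =
      ∫ s in Ioi (21 : ℝ), ∫ θ in Ioo (-π) π, dy F (s, θ) := setIntegral_prod (dy F) hi
  rw [e1]
  have hpi : (-π : ℝ) ≤ π := by linarith [pi_pos]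
  have e2 : ∀ s : ℝ, ∫ θ in Ioo (-π) π, dy F (s, θ) = 0 := by
    intro s
    have h1 : ∀ θ ∈ uIcc (-π) π, HasDerivAt (fun θ => F (s, θ)) (dy F (s, θ)) θ :=
      fun θ _ => hdy hF (s, θ)
    have hc : Continuous fun θ : ℝ => dy F (s, θ) := (sm_dy hF).continuous.comp (by fun_prop)
    rw [← integral_Ioc_eq_integral_Ioo, ← intervalIntegral.integral_of_le hpi,
      intervalIntegral.integral_eq_sub_of_hasDerivAt h1 (hc.intervalIntegrable _ _), hper,
      sub_self]
  simp only [e2, integral_zero]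

/-- a positive smooth function which is `s` for `s ≥ 21` -/
def kk (s : ℝ) : ℝ := 1 + smoothTransition (s - 20) * (s - 1)

theorem kk_eq {s : ℝ} (h : 21 ≤ s) : kk s = s := by
  unfold kk
  rw [smoothTransition.one_of_one_le (by linarith)]
  ring

theorem kk_pos (s : ℝ) : 0 < kk s := by
  unfold kk
  rcases le_or_gt s 20 with h | h
  · rw [smoothTransition.zero_of_nonpos (by linarith)]
    norm_num
  · have h1 := smoothTransition.nonneg (s - 20)
    have : 0 ≤ smoothTransition (s - 20) * (s - 1) := mul_nonneg h1 (by linarith)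
    linarith

theorem kk_smooth : ContDiff ℝ (⊤ : ℕ∞) kk := by
  unfold kk
  exact contDiff_const.add ((smoothTransition.contDiff.comp (contDiff_id.sub contDiff_const)).mul
    (contDiff_id.sub contDiff_const))

/-- a smooth function which is `U0` for `s ≥ 21` -/
def VV (p : P) : ℝ :=
  exp p.1 * (kk p.1 ^ (-(3 / 4) : ℝ) * cos p.2 + 3 / 16 * kk p.1 ^ (-(7 / 4) : ℝ) * cos (3 * p.2))

theorem VV_eq {p : P} (h : 21 ≤ p.1) : VV p = U0 p := by
  unfold VV U0
  rw [kk_eq h]

theorem kk1_smooth : Sm (fun p : P => kk p.1) := kk_smooth.comp contDiff_fst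

theorem VV_smooth : Sm VV := by
  unfold VV
  have h1 : Sm (fun p : P => kk p.1 ^ (-(3 / 4) : ℝ)) :=
    kk1_smooth.rpow_const_of_ne fun p => (kk_pos _).ne'
  have h2 : Sm (fun p : P => kk p.1 ^ (-(7 / 4) : ℝ)) :=
    kk1_smooth.rpow_const_of_ne fun p => (kk_pos _).ne'
  have h3 : Sm (fun p : P => exp p.1) := contDiff_exp.comp contDiff_fst
  have h4 : Sm (fun p : P => cos p.2) := contDiff_cos.comp contDiff_snd
  have h5 : Sm (fun p : P => cos (3 * p.2)) :=
    contDiff_cos.comp (contDiff_const.mul contDiff_snd)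
  exact h3.mul ((h1.mul h4).add ((contDiff_const.mul h2).mul h5))

theorem VV_nhds {p : P} (h : 21 < p.1) : VV =ᶠ[𝓝 p] U0 := by
  have : {q : P | 21 < q.1} ∈ 𝓝 p := (isOpen_Ioi.preimage continuous_fst).mem_nhds h
  filter_upwards [this] with q hq using VV_eq (le_of_lt hq)

theorem ibp : S_ibp := by
  intro Φ hΦ
  obtain ⟨a, b, ha, hs0⟩ := hΦ.supp
  have hΦs : Sm Φ := hΦ.smooth
  have hs : ∀ p : P, Φ p ≠ 0 → p.1 ∈ Icc a b := fun p hp => hs0 p.1 p.2 hp
  have hV := VV_smooth
  have hk : Sm (fun p : P => 3 / kk p.1) :=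
    contDiff_const.div kk1_smooth fun p => (kk_pos _).ne'
  have hk2 : Sm (fun p : P => 3 / 2 / kk p.1 ^ 2) :=
    contDiff_const.div (kk1_smooth.pow 2) fun p => (pow_pos (kk_pos _) 2).ne'
  have hc : Sm (fun p : P => cos (2 * p.2)) := contDiff_cos.comp (contDiff_const.mul contDiff_snd)
  have hsn : Sm (fun p : P => sin (2 * p.2)) := contDiff_sin.comp (contDiff_const.mul contDiff_snd)
  -- the vector field
  let A : P → ℝ := fun p => VV p * dx Φ p + (-1) * (dx VV p * Φ p) +
    (-1) * ((3 / kk p.1) * (cos (2 * p.2) * (VV p * Φ p)))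
  let B : P → ℝ := fun p => VV p * dy Φ p + (-1) * (dy VV p * Φ p) +
    (-1) * ((3 / 2 / kk p.1 ^ 2) * (sin (2 * p.2) * (VV p * Φ p)))
  have hVΦ : Sm (fun p => VV p * Φ p) := hV.mul hΦs
  have hA1 : Sm (fun p => VV p * dx Φ p) := hV.mul (sm_dx hΦs)
  have hA2 : Sm (fun p => dx VV p * Φ p) := (sm_dx hV).mul hΦs
  have hcV : Sm (fun p : P => cos (2 * p.2) * (VV p * Φ p)) := hc.mul hVΦ
  have hA3 : Sm (fun p => (3 / kk p.1) * (cos (2 * p.2) * (VV p * Φ p))) := hk.mul hcV
  have hB1 : Sm (fun p => VV p * dy Φ p) := hV.mul (sm_dy hΦs)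
  have hB2 : Sm (fun p => dy VV p * Φ p) := (sm_dy hV).mul hΦs
  have hsV : Sm (fun p : P => sin (2 * p.2) * (VV p * Φ p)) := hsn.mul hVΦ
  have hB3 : Sm (fun p => (3 / 2 / kk p.1 ^ 2) * (sin (2 * p.2) * (VV p * Φ p))) := hk2.mul hsV
  have hA : Sm A := ((hA1.add (contDiff_const.mul hA2)).add (contDiff_const.mul hA3))
  have hB : Sm B := ((hB1.add (contDiff_const.mul hB2)).add (contDiff_const.mul hB3))
  have hAs : ∀ p : P, A p ≠ 0 → p.1 ∈ Icc a b := by
    intro p hp
    by_contra h0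
    have h1 : Φ p = 0 := by
      by_contra h2
      exact h0 (hs p h2)
    have h2 : dx Φ p = 0 := by
      by_contra h2
      exact h0 (dx_supp hs p (Or.inl h2))
    apply hp
    simp only [A, h1, h2, mul_zero, add_zero]
  have hBs : ∀ p : P, B p ≠ 0 → p.1 ∈ Icc a b := by
    intro p hp
    by_contra h0
    have h1 : Φ p = 0 := by
      by_contra h2
      exact h0 (hs p h2)
    have h2 : dy Φ p = 0 := by
      by_contra h2
      exact h0 (dx_supp hs p (Or.inr (Or.inl h2)))
    apply hp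
    simp only [B, h1, h2, mul_zero, add_zero]
  have hΦ2 : ∀ s θ, Φ (s, θ + 2 * π) = Φ (s, θ) := by
    intro s θ
    have e : θ + 2 * π = (θ + π) + π := by ring
    rw [e, hΦ.anti, hΦ.anti, neg_neg]
  have hV2 : ∀ s θ, VV (s, θ + 2 * π) = VV (s, θ) := by
    intro s θ
    have e2 : 3 * (θ + 2 * π) = 3 * θ + (3 : ℕ) * (2 * π) := by push_cast; ring
    simp only [VV]
    rw [cos_add_two_pi, e2, cos_add_nat_mul_two_pi]
  have hdy2 : ∀ F : P → ℝ, (∀ s θ, F (s, θ + 2 * π) = F (s, θ)) →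
      ∀ s θ, dy F (s, θ + 2 * π) = dy F (s, θ) := by
    intro F hF s θ
    have e1 : (fun t => F (s, t + 2 * π)) = fun t => F (s, t) := funext fun t => hF s t
    have e3 := deriv_comp_add_const (fun t => F (s, t)) (2 * π) θ
    rw [e1] at e3
    exact e3.symm
  have hBper : ∀ s, B (s, π) = B (s, -π) := by
    intro s
    have e : π = -π + 2 * π := by ring
    have e1 : Φ (s, π) = Φ (s, -π) := by
      conv_lhs => rw [e]
      exact hΦ2 s (-π)
    have e2 : VV (s, π) = VV (s, -π) := by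
      conv_lhs => rw [e]
      exact hV2 s (-π)
    have e3 : dy Φ (s, π) = dy Φ (s, -π) := by
      conv_lhs => rw [e]
      exact hdy2 Φ hΦ2 s (-π)
    have e4 : dy VV (s, π) = dy VV (s, -π) := by
      conv_lhs => rw [e]
      exact hdy2 VV hV2 s (-π)
    have e5 : sin (2 * π) = sin (2 * -π) := by
      rw [mul_neg, sin_neg, sin_two_pi, neg_zero]
    simp only [B, e1, e2, e3, e4, e5]
  have hiA := int_dx hA ha hAs
  have hiB := int_dy hB hBs hBper
  have iA : IntegrableOn (dx A) (Sp 21) := integrable_Sp (sm_dx hA).continuous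
    (fun p hp => dx_supp hAs p (Or.inl hp)) 21
  have iB : IntegrableOn (dy B) (Sp 21) := integrable_Sp (sm_dy hB).continuous
    (fun p hp => dx_supp hBs p (Or.inr (Or.inl hp))) 21
  -- the pointwise identity
  have key : ∀ p ∈ Sp 21, U0 p * G0 Φ p = F0 p * Φ p + (dx A p + dy B p) := by
    intro p hp
    have hp1 : (21 : ℝ) < p.1 := hp.1
    have hp0 : p.1 ≠ 0 := by
      have : (0 : ℝ) < p.1 := by linarith
      exact this.ne'
    have v0 : VV p = U0 p := VV_eq hp1.le
    have v1 : dx VV p = dx U0 p := dx_congr (VV_nhds hp1)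
    have v2 : dy VV p = dy U0 p := dy_congr (VV_nhds hp1)
    have v3 : lap VV p = lap U0 p := lap_congr (VV_nhds hp1)
    have k0 : kk p.1 = p.1 := kk_eq hp1.le
    have knear : kk =ᶠ[𝓝 p.1] fun s => s := by
      filter_upwards [isOpen_Ioi.mem_nhds hp1] with s hs' using kk_eq (le_of_lt hs')
    have k1 : dx (fun p : P => 3 / kk p.1) p = -3 / p.1 ^ 2 := by
      change deriv (fun s => 3 / kk s) p.1 = _
      have h1 : (fun s => 3 / kk s) =ᶠ[𝓝 p.1] fun s => 3 / s := by
        filter_upwards [knear] with s hs' using by rw [hs']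
      rw [h1.deriv_eq]
      have h2 : HasDerivAt (fun s : ℝ => 3 / s) ((0 * p.1 - 3 * 1) / p.1 ^ 2) p.1 :=
        (hasDerivAt_const p.1 (3 : ℝ)).div (hasDerivAt_id p.1) hp0
      rw [h2.deriv]
      ring
    have k2 : dy (fun p : P => 3 / 2 / kk p.1 ^ 2) p = 0 := by
      change deriv (fun _ => 3 / 2 / kk p.1 ^ 2) p.2 = 0
      exact deriv_const _ _
    have c1 : dx (fun p : P => cos (2 * p.2)) p = 0 := by
      change deriv (fun _ => cos (2 * p.2)) p.1 = 0
      exact deriv_const _ _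
    have c2 : dy (fun p : P => sin (2 * p.2)) p = 2 * cos (2 * p.2) := by
      change deriv (fun t => sin (2 * t)) p.2 = _
      have h1 : HasDerivAt (fun t : ℝ => 2 * t) (2 * 1) p.2 := (hasDerivAt_id p.2).const_mul 2
      have h2 := h1.sin
      rw [h2.deriv]
      ring
    have dA : dx A p = dx VV p * dx Φ p + VV p * dx (dx Φ) p -
        (dx (dx VV) p * Φ p + dx VV p * dx Φ p) -
        ((-3 / p.1 ^ 2) * (cos (2 * p.2) * (VV p * Φ p)) +
          3 / p.1 * (cos (2 * p.2) * (dx VV p * Φ p + VV p * dx Φ p))) := by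
      have h1 : dx A p = dx (fun p => VV p * dx Φ p + (-1) * (dx VV p * Φ p)) p +
          dx (fun p => (-1) * ((3 / kk p.1) * (cos (2 * p.2) * (VV p * Φ p)))) p :=
        dx_add (hA1.add (contDiff_const.mul hA2)) (contDiff_const.mul hA3) p
      rw [h1, dx_add hA1 (contDiff_const.mul hA2), dx_cmul hA2, dx_cmul hA3,
        dx_mul hV (sm_dx hΦs), dx_mul (sm_dx hV) hΦs, dx_mul hk hcV, dx_mul hc hVΦ,
        dx_mul hV hΦs, k1, c1, k0]
      ring
    have dB : dy B p = dy VV p * dy Φ p + VV p * dy (dy Φ) p -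
        (dy (dy VV) p * Φ p + dy VV p * dy Φ p) -
        3 / 2 / p.1 ^ 2 * (2 * cos (2 * p.2) * (VV p * Φ p) +
          sin (2 * p.2) * (dy VV p * Φ p + VV p * dy Φ p)) := by
      have h1 : dy B p = dy (fun p => VV p * dy Φ p + (-1) * (dy VV p * Φ p)) p +
          dy (fun p => (-1) * ((3 / 2 / kk p.1 ^ 2) * (sin (2 * p.2) * (VV p * Φ p)))) p :=
        dy_add (hB1.add (contDiff_const.mul hB2)) (contDiff_const.mul hB3) p
      rw [h1, dy_add hB1 (contDiff_const.mul hB2), dy_cmul hB2, dy_cmul hB3,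
        dy_mul hV (sm_dy hΦs), dy_mul (sm_dy hV) hΦs, dy_mul hk2 hsV, dy_mul hsn hVΦ,
        dy_mul hV hΦs, k2, c2, k0]
      ring
    have hl : dx (dx VV) p + dy (dy VV) p = lap U0 p := v3
    rw [dA, dB, G0, F0, ← hl, ← v0, ← v1, ← v2]
    have hlΦ : lap Φ p = dx (dx Φ) p + dy (dy Φ) p := rfl
    rw [hlΦ]
    ring
  have iF : IntegrableOn (fun p => F0 p * Φ p) (Sp 21) := by
    -- `F0 Φ` agrees with a continuous function
    have h1 : Continuous fun p : P => (lap VV p + 3 / kk p.1 * cos (2 * p.2) * dx VV p +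
        3 / 2 / kk p.1 ^ 2 * sin (2 * p.2) * dy VV p) * Φ p :=
      ((((sm_lap hV).continuous).add ((hk.continuous.mul hc.continuous).mul
        (sm_dx hV).continuous)).add ((hk2.continuous.mul hsn.continuous).mul
        (sm_dy hV).continuous)).mul hΦs.continuous
    have h2 := integrable_Sp h1 (a := a) (b := b) (fun p hp => hs p (right_ne_zero_of_mul hp)) 21
    refine h2.congr_fun (fun p hp => ?_) (mSp 21)
    have hp1 : (21 : ℝ) < p.1 := hp.1
    simp only [F0]
    rw [kk_eq hp1.le, dx_congr (VV_nhds hp1), dy_congr (VV_nhds hp1), lap_congr (VV_nhds hp1)]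
  have iAB : IntegrableOn (fun p => dx A p + dy B p) (Sp 21) := iA.add iB
  have e1 : ∫ p in Sp 21, (F0 p * Φ p + (dx A p + dy B p)) =
      (∫ p in Sp 21, F0 p * Φ p) + ∫ p in Sp 21, (dx A p + dy B p) := integral_add iF iAB
  have e2 : ∫ p in Sp 21, (dx A p + dy B p) = (∫ p in Sp 21, dx A p) + ∫ p in Sp 21, dy B p :=
    integral_add iA iB
  rw [setIntegral_congr_fun (mSp 21) key, e1, e2, hiA, hiB]
  simp

end Pool.Agent.Q217.NDIBP
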