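import Pool.Agent.Q61.ND.Calc

/-!
# Project ND (helper61): job NHB, the singular function is not in H¹
-/

set_option autoImplicit false

open MeasureTheory Set Filter Topology Real

noncomputable section

namespace Pool.Agent.Q217.NDNHB

open Pool.Agent.Q61.AD (P Q Per dt dx dy lap Tst D)
open Pool.Agent.Q61.ND
open Pool.Agent.Q61.ND.Calc

/-! ### generalities -/

theorem int_prod {μ : Measure P} {f g : P → ℝ} (hf : Measurable f) (hg : Measurable g)
    (hf2 : Integrable (fun x => f x ^ 2) μ) (hg2 : Integrable (fun x => g x ^ 2) μ) :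
    Integrable (fun x => f x * g x) μ := by
  refine Integrable.mono' (hf2.add hg2) (hf.mul hg).aestronglyMeasurable
    (Eventually.of_forall fun x => ?_)
  simp only [Pi.add_apply, Real.norm_eq_abs, abs_mul]
  nlinarith [sq_nonneg (|f x| - |g x|), sq_abs (f x), sq_abs (g x), sq_nonneg (f x),
    sq_nonneg (g x)]

theorem cs {μ : Measure P} {f g : P → ℝ} (hf : Measurable f) (hg : Measurable g)
    (hf2 : Integrable (fun x => f x ^ 2) μ) (hg2 : Integrable (fun x => g x ^ 2) μ) :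
    (∫ x, f x * g x ∂μ) ^ 2 ≤ (∫ x, f x ^ 2 ∂μ) * ∫ x, g x ^ 2 ∂μ := by
  have hfg := int_prod hf hg hf2 hg2
  have h1 : ∀ t : ℝ, 0 ≤ (∫ x, f x ^ 2 ∂μ) * (t * t) + (2 * ∫ x, f x * g x ∂μ) * t +
      ∫ x, g x ^ 2 ∂μ := by
    intro t
    have e : (∫ x, f x ^ 2 ∂μ) * (t * t) + (2 * ∫ x, f x * g x ∂μ) * t + ∫ x, g x ^ 2 ∂μ =
        ∫ x, (t * f x + g x) ^ 2 ∂μ := by
      have e1 : ∀ x, (t * f x + g x) ^ 2 = (t * t) * f x ^ 2 + (2 * t) * (f x * g x) + g x ^ 2 :=
        fun x => by ring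
      simp only [e1]
      have i1 : Integrable (fun x => (t * t) * f x ^ 2) μ := hf2.const_mul _
      have i2 : Integrable (fun x => (2 * t) * (f x * g x)) μ := hfg.const_mul _
      have i12 : Integrable (fun x => (t * t) * f x ^ 2 + (2 * t) * (f x * g x)) μ := i1.add i2
      have a1 : ∫ x, ((t * t) * f x ^ 2 + (2 * t) * (f x * g x) + g x ^ 2) ∂μ =
          (∫ x, ((t * t) * f x ^ 2 + (2 * t) * (f x * g x)) ∂μ) + ∫ x, g x ^ 2 ∂μ :=
        integral_add i12 hg2
      have a2 : ∫ x, ((t * t) * f x ^ 2 + (2 * t) * (f x * g x)) ∂μ =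
          (∫ x, (t * t) * f x ^ 2 ∂μ) + ∫ x, (2 * t) * (f x * g x) ∂μ := integral_add i1 i2
      rw [a1, a2, integral_const_mul, integral_const_mul]
      ring
    rw [e]
    exact integral_nonneg fun x => sq_nonneg _
  have h2 := discrim_le_zero h1
  unfold discrim at h2
  nlinarith

theorem cont_rs : Continuous rs := by unfold rs; fun_prop

theorem rs_nonneg (x : P) : 0 ≤ rs x := by unfold rs; positivity

theorem meas_ls : Measurable ls := by
  unfold ls
  exact (Real.measurable_log.comp cont_rs.measurable).const_mul _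

theorem meas_U0c : Measurable U0c := by
  have h1 : Measurable (fun x : P => √(rs x)) := cont_rs.measurable.sqrt
  have h2 : Measurable (fun x : P => x.1 / √(rs x)) := measurable_fst.div h1
  have h3 : Measurable (fun x : P => ls x ^ (-(3 / 4) : ℝ)) := meas_ls.pow_const _
  have h4 : Measurable (fun x : P => ls x ^ (-(7 / 4) : ℝ)) := meas_ls.pow_const _
  unfold U0c
  exact (measurable_const.div h1).mul ((h3.mul h2).add ((measurable_const.mul h4).mul
    (((measurable_const.mul (h2.pow_const 3))).sub (measurable_const.mul h2))))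

theorem meas_Dc (S : ℝ) : MeasurableSet (Dc S) :=
  (measurableSet_lt measurable_const cont_rs.measurable).inter
    (measurableSet_lt cont_rs.measurable measurable_const)

theorem Q_sub : Q ⊆ Icc (0 : ℝ) 1 ×ˢ Icc (0 : ℝ) 1 :=
  prod_mono Ico_subset_Icc_self Ico_subset_Icc_self

theorem int_Q {F : P → ℝ} (hF : Continuous F) : IntegrableOn F Q :=
  (hF.continuousOn.integrableOn_compact (isCompact_Icc.prod isCompact_Icc)).mono_set Q_sub

/-! ### the periodic extension -/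

theorem fract_far (t : ℝ) (ht : ¬ (1 / 4 < Int.fract t ∧ Int.fract t < 3 / 4)) :
    ∀ᶠ s in 𝓝 t, 1 / 36 ≤ (Int.fract s - 1 / 2) ^ 2 := by
  obtain ⟨m, hm⟩ : ∃ m : ℤ, |t - m| ≤ 1 / 4 := by
    have h1 := Int.fract_add_floor t
    have h2 := Int.fract_nonneg t
    have h3 := Int.fract_lt_one t
    rcases le_or_gt (Int.fract t) (1 / 4) with h | h
    · exact ⟨⌊t⌋, by rw [abs_le]; constructor <;> linarith⟩
    · have h4 : 3 / 4 ≤ Int.fract t := by
        by_contra h5
        exact ht ⟨h, not_le.1 h5⟩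
      exact ⟨⌊t⌋ + 1, by push_cast; rw [abs_le]; constructor <;> linarith⟩
  have hop : IsOpen {s : ℝ | |s - m| < 1 / 3} := by
    apply isOpen_lt (by fun_prop) continuous_const
  filter_upwards [hop.mem_nhds (show |t - m| < 1 / 3 by linarith)] with s hs
  have hs' : |s - m| < 1 / 3 := hs
  rw [abs_lt] at hs'
  rcases le_or_gt (m : ℝ) s with h | h
  · have e : Int.fract s = s - m := by
      rw [Int.fract_eq_iff]
      exact ⟨by linarith, by linarith, m, by ring⟩
    rw [e]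
    nlinarith
  · have e : Int.fract s = s - m + 1 := by
      rw [Int.fract_eq_iff]
      exact ⟨by linarith, by linarith, m - 1, by push_cast; ring⟩
    rw [e]
    nlinarith

theorem rs_fr (y : P) : rs (fr y) = (Int.fract y.1 - 1 / 2) ^ 2 + (Int.fract y.2 - 1 / 2) ^ 2 := rfl

theorem psi_smooth {ρ : P → ℝ} (hρ : Sm ρ) (h0 : ∀ x, ρ x ≠ 0 → rs x < 1 / 36) :
    Sm (fun x => ρ (fr x)) := by
  refine contDiff_iff_contDiffAt.2 fun x => ?_
  by_cases hx : (1 / 4 < Int.fract x.1 ∧ Int.fract x.1 < 3 / 4) ∧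
      (1 / 4 < Int.fract x.2 ∧ Int.fract x.2 < 3 / 4)
  · have hop : IsOpen {y : P | ((⌊x.1⌋ : ℝ) < y.1 ∧ y.1 < ⌊x.1⌋ + 1) ∧
        ((⌊x.2⌋ : ℝ) < y.2 ∧ y.2 < ⌊x.2⌋ + 1)} := by
      refine IsOpen.inter (IsOpen.inter ?_ ?_) (IsOpen.inter ?_ ?_)
      · exact isOpen_lt continuous_const continuous_fst
      · exact isOpen_lt continuous_fst continuous_const
      · exact isOpen_lt continuous_const continuous_snd
      · exact isOpen_lt continuous_snd continuous_const
    have hmem : x ∈ {y : P | ((⌊x.1⌋ : ℝ) < y.1 ∧ y.1 < ⌊x.1⌋ + 1) ∧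
        ((⌊x.2⌋ : ℝ) < y.2 ∧ y.2 < ⌊x.2⌋ + 1)} := by
      have h1 := Int.fract_add_floor x.1
      have h2 := Int.fract_add_floor x.2
      obtain ⟨⟨a1, a2⟩, a3, a4⟩ := hx
      exact ⟨⟨by linarith, by linarith⟩, by linarith, by linarith⟩
    have he : (fun y => ρ (fr y)) =ᶠ[𝓝 x]
        fun y : P => ρ (y.1 - (⌊x.1⌋ + 1 / 2), y.2 - (⌊x.2⌋ + 1 / 2)) := by
      filter_upwards [hop.mem_nhds hmem] with y hy
      obtain ⟨⟨a1, a2⟩, a3, a4⟩ := hy
      have e1 : Int.fract y.1 = y.1 - ⌊x.1⌋ := by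
        rw [Int.fract_eq_iff]
        exact ⟨by linarith, by linarith, ⌊x.1⌋, by ring⟩
      have e2 : Int.fract y.2 = y.2 - ⌊x.2⌋ := by
        rw [Int.fract_eq_iff]
        exact ⟨by linarith, by linarith, ⌊x.2⌋, by ring⟩
      have e3 : fr y = (y.1 - (⌊x.1⌋ + 1 / 2), y.2 - (⌊x.2⌋ + 1 / 2)) := by
        unfold fr
        rw [e1, e2]
        ext <;> simp only <;> ring
      rw [e3]
    refine ContDiffAt.congr_of_eventuallyEq ?_ he
    have h3 : ContDiff ℝ (⊤ : ℕ∞) (fun y : P =>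
        ((y.1 - (⌊x.1⌋ + 1 / 2), y.2 - (⌊x.2⌋ + 1 / 2)) : P)) :=
      (contDiff_fst.sub contDiff_const).prodMk (contDiff_snd.sub contDiff_const)
    exact (hρ.comp h3).contDiffAt
  · have he : (fun y => ρ (fr y)) =ᶠ[𝓝 x] fun _ => 0 := by
      have hfar : ∀ᶠ y in 𝓝 x, 1 / 36 ≤ rs (fr y) := by
        by_cases h1 : 1 / 4 < Int.fract x.1 ∧ Int.fract x.1 < 3 / 4
        · have h2 : ¬ (1 / 4 < Int.fract x.2 ∧ Int.fract x.2 < 3 / 4) := fun h => hx ⟨h1, h⟩
          have h3 := (continuous_snd.tendsto x).eventually (fract_far x.2 h2)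
          filter_upwards [h3] with y hy
          rw [rs_fr]
          nlinarith [sq_nonneg (Int.fract y.1 - 1 / 2)]
        · have h3 := (continuous_fst.tendsto x).eventually (fract_far x.1 h1)
          filter_upwards [h3] with y hy
          rw [rs_fr]
          nlinarith [sq_nonneg (Int.fract y.2 - 1 / 2)]
      filter_upwards [hfar] with y hy
      by_contra h
      exact absurd (h0 _ h) (not_lt.2 hy)
    exact contDiffAt_const.congr_of_eventuallyEq he

theorem psi_per (ρ : P → ℝ) : Per (fun x => ρ (fr x)) := by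
  intro x y
  constructor
  · simp only [fr, Int.fract_add_one]
  · simp only [fr, Int.fract_add_one]

theorem fr_tr {x : P} (hx : rs x < 1 / 4) : fr (x.1 + 1 / 2, x.2 + 1 / 2) = x := by
  have h1 : x.1 ^ 2 + x.2 ^ 2 < 1 / 4 := hx
  have a1 : |x.1| < 1 / 2 := abs_lt_of_sq_lt_sq (by nlinarith [sq_nonneg x.2]) (by norm_num)
  have a2 : |x.2| < 1 / 2 := abs_lt_of_sq_lt_sq (by nlinarith [sq_nonneg x.1]) (by norm_num)
  rw [abs_lt] at a1 a2
  have e1 : Int.fract (x.1 + 1 / 2) = x.1 + 1 / 2 :=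
    Int.fract_eq_self.2 ⟨by linarith, by linarith⟩
  have e2 : Int.fract (x.2 + 1 / 2) = x.2 + 1 / 2 :=
    Int.fract_eq_self.2 ⟨by linarith, by linarith⟩
  unfold fr
  simp only [e1, e2]
  ext <;> simp

theorem dx_psi (ρ : P → ℝ) {x : P} (hx : rs x < 1 / 4) :
    dx (fun y => ρ (fr y)) (x.1 + 1 / 2, x.2 + 1 / 2) = dx ρ x := by
  have h1 := dx_tr (fun y => ρ (fr y)) ((1 / 2, 1 / 2) : P) x
  have h2 : x + ((1 / 2, 1 / 2) : P) = (x.1 + 1 / 2, x.2 + 1 / 2) := rfl
  rw [← h2, ← h1]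
  apply dx_congr
  have hop : IsOpen {y : P | rs y < 1 / 4} := isOpen_lt cont_rs continuous_const
  filter_upwards [hop.mem_nhds hx] with y hy
  have h3 := fr_tr hy
  have h4 : y + ((1 / 2, 1 / 2) : P) = (y.1 + 1 / 2, y.2 + 1 / 2) := rfl
  rw [h4, h3]

theorem exp2_lt : exp (-2 * 1) < 1 / 4 := by
  have h1 : (2 : ℝ) < exp 1 := by
    have := Real.exp_one_gt_d9
    linarith
  have h2 : exp (-2 * 1) * (exp 1 * exp 1) = 1 := by
    rw [← exp_add, ← exp_add]
    norm_num
  have h3 : 0 < exp (-2 * 1) := exp_pos _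
  have h4 : (0 : ℝ) < exp 1 * exp 1 - 4 := by nlinarith
  have h5 : 0 < exp (-2 * 1) * (exp 1 * exp 1 - 4) := mul_pos h3 h4
  rw [mul_sub, h2] at h5
  generalize exp (-2 * 1) = e at h5 ⊢
  linarith

theorem exp46_lt : exp (-46) < 1 / 36 := by
  have h1 : (46 : ℝ) + 1 ≤ exp 46 := Real.add_one_le_exp 46
  have h2 : exp (-46) * exp 46 = 1 := by
    rw [← exp_add]
    norm_num
  have h3 : 0 < exp (-46) := exp_pos _
  nlinarith [mul_le_mul_of_nonneg_left h1 h3.le]

theorem chi_one {x : P} (h : rs x ≤ exp (-46)) : chi x = 1 := by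
  unfold chi
  rw [smoothTransition.zero_of_nonpos, sub_zero]
  have h1 : exp (-46) < exp (-44) := exp_lt_exp.2 (by norm_num)
  exact div_nonpos_of_nonpos_of_nonneg (by linarith) (by linarith)

theorem chi_zero {x : P} (h : exp (-44) ≤ rs x) : chi x = 0 := by
  unfold chi
  rw [smoothTransition.one_of_one_le, sub_self]
  have h1 : exp (-46) < exp (-44) := exp_lt_exp.2 (by norm_num)
  rw [one_le_div (by linarith)]
  linarith

theorem eq_zero_of_rs {x : P} (h : rs x = 0) : x = 0 := by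
  unfold rs at h
  have h1 : x.1 = 0 := by nlinarith [sq_nonneg x.1, sq_nonneg x.2]
  have h2 : x.2 = 0 := by nlinarith [sq_nonneg x.1, sq_nonneg x.2]
  exact Prod.ext h1 h2

/-! ### the main argument -/

/-- the annulus -/
def An (n : ℕ) : Set P := {x | rs x ∈ Icc (exp (-2 * ((n : ℝ) + 1))) (exp (-2 * (n : ℝ)))}

theorem meas_An (n : ℕ) : MeasurableSet (An n) := measurableSet_Icc.preimage cont_rs.measurable

theorem ls_An {n : ℕ} {x : P} (hx : x ∈ An n) : (n : ℝ) ≤ ls x ∧ ls x ≤ n + 1 := by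
  obtain ⟨h1, h2⟩ := hx
  have h0 : 0 < rs x := lt_of_lt_of_le (exp_pos _) h1
  have h3 := Real.log_le_log (exp_pos _) h1
  have h4 := Real.log_le_log h0 h2
  rw [log_exp] at h3 h4
  unfold ls
  constructor <;> linarith

theorem An_sub {n : ℕ} (hn : 23 ≤ n) : An n ⊆ Dc 21 := by
  intro x hx
  refine ⟨lt_of_lt_of_le (exp_pos _) hx.1, lt_of_le_of_lt hx.2 (exp_lt_exp.2 ?_)⟩
  have : (23 : ℝ) ≤ n := by exact_mod_cast hn
  linarith

theorem An_disj {k l : ℕ} (h : k ≠ l) : Disjoint (An (2 * k)) (An (2 * l)) := by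
  rw [Set.disjoint_left]
  intro x hx hy
  have h1 := ls_An hx
  have h2 := ls_An hy
  push_cast at h1 h2
  rcases lt_or_gt_of_ne h with h3 | h3
  · have h4 : (k : ℝ) + 1 ≤ l := by exact_mod_cast h3
    linarith
  · have h4 : (l : ℝ) + 1 ≤ k := by exact_mod_cast h3
    linarith

theorem small (ε : ℝ) (hε : 0 < ε) : ∀ᶠ n : ℕ in atTop, exp (-2 * (n : ℝ)) ≤ ε / (n : ℝ) ^ 2 := by
  have h1 := (Real.tendsto_pow_mul_exp_neg_atTop_nhds_zero 2).comp tendsto_natCast_atTop_atTop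
  have h2 := (h1.eventually (gt_mem_nhds hε))
  filter_upwards [h2, eventually_gt_atTop 0] with n hn hn0
  have hn0' : (0 : ℝ) < n := by exact_mod_cast hn0
  have hn' : (n : ℝ) ^ 2 * exp (-(n : ℝ)) < ε := hn
  rw [le_div_iff₀ (by positivity)]
  have h3 : exp (-2 * (n : ℝ)) ≤ exp (-(n : ℝ)) := exp_le_exp.2 (by linarith)
  calc exp (-2 * (n : ℝ)) * (n : ℝ) ^ 2 ≤ exp (-(n : ℝ)) * (n : ℝ) ^ 2 :=
        mul_le_mul_of_nonneg_right h3 (by positivity)
    _ = (n : ℝ) ^ 2 * exp (-(n : ℝ)) := mul_comm _ _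
    _ ≤ ε := hn'.le

theorem nhb (h : S_nha) (h1 : S_tra) (h2 : S_sqi) : S_nhb := by
  intro W hW G₁ G₂ hG1 hG2 hG hall
  obtain ⟨ρ, c, C0, hc, hρ⟩ := h
  obtain ⟨C, hCdef⟩ : ∃ C, C = max C0 1 := ⟨_, rfl⟩
  have hC1 : 1 ≤ C := by rw [hCdef]; exact le_max_right _ _
  have hC0 : C0 ≤ C := by rw [hCdef]; exact le_max_left _ _
  have hC : 0 < C := by linarith
  have hls21 : ∀ x ∈ Dc 21, 21 ≤ ls x := by
    intro x hx
    have h3 := Real.log_le_log hx.1 hx.2.le
    rw [log_exp] at h3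
    unfold ls
    linarith
  -- `W²` is integrable on the disc
  have iW : IntegrableOn (fun x => W x ^ 2) (Dc 21) := by
    refine Integrable.mono' hW.int (hW.meas.pow_const 2).aestronglyMeasurable ?_
    rw [ae_restrict_iff' (meas_Dc 21)]
    refine Eventually.of_forall fun x hx => ?_
    rw [Real.norm_eq_abs, abs_of_nonneg (sq_nonneg _)]
    have := hls21 x hx
    nlinarith [sq_nonneg (W x)]
  have iU : IntegrableOn (fun x => U0c x ^ 2) (Dc 21) := h2.1
  have iG : IntegrableOn (fun x => G₁ x ^ 2) Q := by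
    refine Integrable.mono' hG (hG1.pow_const 2).aestronglyMeasurable
      (Eventually.of_forall fun x => ?_)
    rw [Real.norm_eq_abs, abs_of_nonneg (sq_nonneg _)]
    nlinarith [sq_nonneg (G₂ x)]
  obtain ⟨K, hK⟩ : ∃ K, K = ∫ x in Q, G₁ x ^ 2 := ⟨_, rfl⟩
  have hK0 : 0 ≤ K := by rw [hK]; exact integral_nonneg fun x => sq_nonneg _
  have hDc : Dc 21 ⊆ Dc 1 := fun x hx => ⟨hx.1, hx.2.trans (exp_lt_exp.2 (by norm_num))⟩
  have hW0 : W 0 = 0 := by
    have := hW.odd 0
    rw [neg_zero] at this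
    linarith
  -- the function which is transplanted
  obtain ⟨f, hf⟩ : ∃ f : P → ℝ, f = fun x => chi x * (U0c x - W x) := ⟨_, rfl⟩
  have hf0 : ∀ x, rs x = 0 ∨ exp (-2) ≤ rs x → f x = 0 := by
    intro x hx
    rw [hf]
    rcases hx with hx | hx
    · have := eq_zero_of_rs hx
      subst this
      have e : U0c 0 = 0 := by simp [U0c, rs]
      simp only [e, hW0, sub_zero, mul_zero]
    · have h3 : exp (-44) ≤ rs x := le_trans (exp_le_exp.2 (by norm_num)) hx
      simp only [chi_zero h3, zero_mul]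
  have step : ∀ n : ℕ, 23 ≤ n → ∃ X Y : ℝ, c * (n : ℝ) ^ (-(3 / 4) : ℝ) ≤ -X + Y ∧
      X ^ 2 ≤ K * (C * exp (-2 * (n : ℝ))) ∧ Y ^ 2 ≤ C * ∫ x in An n, W x ^ 2 := by
    intro n hn
    obtain ⟨r1, r2, r3, r4, r5⟩ := hρ n hn
    have hnR : (23 : ℝ) ≤ n := by exact_mod_cast hn
    have hsm : Sm (ρ n) := r1
    have r46 : ∀ x ∈ An n, rs x ≤ exp (-46) := fun x hx =>
      hx.2.trans (exp_le_exp.2 (by linarith))
    have r2' : ∀ x, ρ n x ≠ 0 → x ∈ An n := fun x hx => r2 x hx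
    have hcl : IsClosed (An n) := isClosed_Icc.preimage cont_rs
    have hd0 : ∀ x, x ∉ An n → dx (ρ n) x = 0 := fun x hx => (zero_off hcl r2' hx).1
    have hsub := An_sub hn
    have hs36 : ∀ x, ρ n x ≠ 0 → rs x < 1 / 36 := fun x hx =>
      lt_of_le_of_lt (r46 x (r2' x hx)) exp46_lt
    have hψ : SP (fun x => ρ n (fr x)) := ⟨psi_smooth hsm hs36, psi_per _⟩
    have hmd : Measurable (dx (ρ n)) := (sm_dx hsm).continuous.measurable
    have hmρ : Measurable (ρ n) := hsm.continuous.measurable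
    -- square integrability on the disc
    have bdd_int : ∀ F : P → ℝ, Continuous F → (∀ x, x ∉ An n → F x = 0) →
        ∀ S : Set P, MeasurableSet S → IntegrableOn F S := by
      intro F hF hF0 S hS
      have hbox : An n ⊆ Icc (-1 : ℝ) 1 ×ˢ Icc (-1 : ℝ) 1 := by
        intro x hx
        have h3 : rs x < 1 / 36 := lt_of_le_of_lt (r46 x hx) exp46_lt
        have h4 : x.1 ^ 2 + x.2 ^ 2 < 1 / 36 := h3
        refine ⟨⟨?_, ?_⟩, ?_, ?_⟩ <;> nlinarith [sq_nonneg x.1, sq_nonneg x.2]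
      have h3 : IntegrableOn F (Icc (-1 : ℝ) 1 ×ˢ Icc (-1 : ℝ) 1) :=
        hF.continuousOn.integrableOn_compact (isCompact_Icc.prod isCompact_Icc)
      refine h3.of_forall_sdiff_eq_zero hS fun x hx => hF0 x fun hA => hx.2 (hbox hA)
    have hρ0 : ∀ x, x ∉ An n → ρ n x = 0 := fun x hx => by
      by_contra h3
      exact hx (r2' x h3)
    have id2 : IntegrableOn (fun x => dx (ρ n) x ^ 2) (Dc 21) :=
      bdd_int _ ((sm_dx hsm).continuous.pow 2) (fun x hx => by simp [hd0 x hx]) _ (meas_Dc 21)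
    -- the transplantation
    have t1 : ∫ x in Q, UP W x * dx (fun x => ρ n (fr x)) x =
        ∫ x in Dc 21, (U0c x - W x) * dx (ρ n) x := by
      have e1 := (h1 f (dx (fun x => ρ n (fr x))) hf0).1
      have e2 : ∫ x in Q, UP W x * dx (fun x => ρ n (fr x)) x =
          ∫ x in Q, f (fr x) * dx (fun x => ρ n (fr x)) x := by
        rw [hf]
        rfl
      rw [e2, e1]
      have e3 : ∫ x in Dc 1, f x * dx (fun x => ρ n (fr x)) (x.1 + 1 / 2, x.2 + 1 / 2) =
          ∫ x in Dc 1, (U0c x - W x) * dx (ρ n) x := by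
        refine setIntegral_congr_fun (meas_Dc 1) fun x hx => ?_
        have h4 : rs x < 1 / 4 := hx.2.trans exp2_lt
        rw [dx_psi (ρ n) h4]
        by_cases h5 : x ∈ An n
        · rw [hf]
          simp only [chi_one (r46 x h5), one_mul]
        · rw [hd0 x h5, mul_zero, mul_zero]
      rw [e3]
      refine setIntegral_eq_of_subset_of_forall_sdiff_eq_zero (meas_Dc 1) hDc fun x hx => ?_
      rw [hd0 x fun hA => hx.2 (hsub hA), mul_zero]
    have t2 : ∫ x in Q, (ρ n (fr x)) ^ 2 = ∫ x in Dc 21, ρ n x ^ 2 := by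
      have e1 := (h1 (ρ n) (fun x => ρ n (fr x)) (by
        intro x hx
        by_contra h3
        have h4 := r2' x h3
        rcases hx with hx | hx
        · have := lt_of_lt_of_le (exp_pos _) h4.1
          rw [hx] at this
          exact lt_irrefl _ this
        · have h5 := r46 x h4
          have h6 : exp (-46) < exp (-2) := exp_lt_exp.2 (by norm_num)
          linarith)).1
      have e2 : ∫ x in Q, (ρ n (fr x)) ^ 2 = ∫ x in Q, ρ n (fr x) * ρ n (fr x) :=
        setIntegral_congr_fun (measurableSet_Ico.prod measurableSet_Ico) fun x _ => sq _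
      rw [e2, e1]
      have e3 : ∫ x in Dc 1, ρ n x * ρ n (fr (x.1 + 1 / 2, x.2 + 1 / 2)) =
          ∫ x in Dc 1, ρ n x ^ 2 := by
        refine setIntegral_congr_fun (meas_Dc 1) fun x hx => ?_
        have h4 : rs x < 1 / 4 := hx.2.trans exp2_lt
        rw [fr_tr h4, sq]
      rw [e3]
      refine setIntegral_eq_of_subset_of_forall_sdiff_eq_zero (meas_Dc 1) hDc fun x hx => ?_
      rw [hρ0 x fun hA => hx.2 (hsub hA)]
      norm_num
    have key := hall _ hψ
    rw [t1] at key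
    have iUd : IntegrableOn (fun x => U0c x * dx (ρ n) x) (Dc 21) :=
      int_prod meas_U0c hmd iU id2
    have iWd : IntegrableOn (fun x => W x * dx (ρ n) x) (Dc 21) :=
      int_prod hW.meas hmd iW id2
    have e4 : ∫ x in Dc 21, (U0c x - W x) * dx (ρ n) x =
        (∫ x in Dc 21, U0c x * dx (ρ n) x) - ∫ x in Dc 21, W x * dx (ρ n) x := by
      rw [← integral_sub iUd iWd]
      exact integral_congr_ae (Eventually.of_forall fun x => by simp only; ring)
    rw [e4] at key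
    refine ⟨∫ x in Q, G₁ x * ρ n (fr x), ∫ x in Dc 21, W x * dx (ρ n) x, by linarith, ?_, ?_⟩
    · have hm : Measurable fun x => ρ n (fr x) := hψ.1.continuous.measurable
      have h3 := cs (μ := volume.restrict Q) hG1 hm iG (int_Q (hψ.1.continuous.pow 2))
      rw [t2, ← hK] at h3
      refine h3.trans (mul_le_mul_of_nonneg_left (r4.trans ?_) hK0)
      exact mul_le_mul_of_nonneg_right hC0 (exp_pos _).le
    · have e5 : ∫ x in Dc 21, W x * dx (ρ n) x = ∫ x in An n, W x * dx (ρ n) x := by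
        refine setIntegral_eq_of_subset_of_forall_sdiff_eq_zero (meas_Dc 21) hsub fun x hx => ?_
        rw [hd0 x hx.2, mul_zero]
      have e6 : ∫ x in Dc 21, dx (ρ n) x ^ 2 = ∫ x in An n, dx (ρ n) x ^ 2 := by
        refine setIntegral_eq_of_subset_of_forall_sdiff_eq_zero (meas_Dc 21) hsub fun x hx => ?_
        rw [hd0 x hx.2]
        norm_num
      have h3 := cs (μ := volume.restrict (An n)) hW.meas hmd (iW.mono_set hsub)
        (id2.mono_set hsub)
      rw [← e5, ← e6] at h3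
      have h4 : 0 ≤ ∫ x in An n, W x ^ 2 := integral_nonneg fun x => sq_nonneg _
      calc (∫ x in Dc 21, W x * dx (ρ n) x) ^ 2 ≤
            (∫ x in An n, W x ^ 2) * ∫ x in Dc 21, dx (ρ n) x ^ 2 := h3
        _ ≤ (∫ x in An n, W x ^ 2) * C := mul_le_mul_of_nonneg_left (r5.trans hC0) h4
        _ = C * ∫ x in An n, W x ^ 2 := mul_comm _ _
  -- a lower bound for the integrals over the annuli
  have low : ∀ᶠ n : ℕ in atTop, c ^ 2 / (4 * C) * (n : ℝ) ^ (-(1 / 2) : ℝ) ≤
      ∫ x in An n, ls x * W x ^ 2 := by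
    have hε : 0 < c ^ 2 / (4 * (K * C + 1)) := by positivity
    filter_upwards [small _ hε, eventually_ge_atTop 23] with n hn hn23
    obtain ⟨X, Y, a1, a2, a3⟩ := step n hn23
    have hn0 : (0 : ℝ) < n := by
      have : 0 < n := by omega
      exact_mod_cast this
    have hn1 : (1 : ℝ) ≤ n := by
      have : 1 ≤ n := by omega
      exact_mod_cast this
    obtain ⟨v, hv⟩ : ∃ v, v = c * (n : ℝ) ^ (-(3 / 4) : ℝ) := ⟨_, rfl⟩
    have hv0 : 0 < v := by rw [hv]; positivity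
    have hv2 : v ^ 2 = c ^ 2 * (n : ℝ) ^ (-(3 / 2) : ℝ) := by
      rw [hv, mul_pow, ← Real.rpow_natCast ((n : ℝ) ^ (-(3 / 4) : ℝ)) 2, ← Real.rpow_mul hn0.le]
      norm_num
    rw [← hv] at a1
    have hX : X ^ 2 ≤ v ^ 2 / 4 := by
      have h3 : 1 / (n : ℝ) ^ 2 ≤ (n : ℝ) ^ (-(3 / 2) : ℝ) := by
        have e : 1 / (n : ℝ) ^ 2 = (n : ℝ) ^ (-2 : ℝ) := by
          rw [Real.rpow_neg hn0.le, one_div]
          norm_num
        rw [e]
        exact Real.rpow_le_rpow_of_exponent_le hn1 (by norm_num)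
      have h4 : K * (C * exp (-2 * (n : ℝ))) ≤ (K * C + 1) * exp (-2 * (n : ℝ)) := by
        have := exp_pos (-2 * (n : ℝ))
        nlinarith
      have h5 : (K * C + 1) * exp (-2 * (n : ℝ)) ≤
          (K * C + 1) * (c ^ 2 / (4 * (K * C + 1)) / (n : ℝ) ^ 2) :=
        mul_le_mul_of_nonneg_left hn (by positivity)
      have h6 : (K * C + 1) * (c ^ 2 / (4 * (K * C + 1)) / (n : ℝ) ^ 2) =
          c ^ 2 / 4 * (1 / (n : ℝ) ^ 2) := by
        have : K * C + 1 ≠ 0 := by positivity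
        field_simp
      have h7 : c ^ 2 / 4 * (1 / (n : ℝ) ^ 2) ≤ c ^ 2 / 4 * (n : ℝ) ^ (-(3 / 2) : ℝ) :=
        mul_le_mul_of_nonneg_left h3 (by positivity)
      rw [hv2]
      linarith
    have hXv : |X| ≤ v / 2 := abs_le_of_sq_le_sq (by nlinarith) (by linarith)
    rw [abs_le] at hXv
    have hY : v / 2 ≤ Y := by linarith
    have hY2 : v ^ 2 / 4 ≤ Y ^ 2 := by nlinarith
    have hsub := An_sub hn23
    have h8 : (n : ℝ) * ∫ x in An n, W x ^ 2 ≤ ∫ x in An n, ls x * W x ^ 2 := by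
      rw [← integral_const_mul]
      refine setIntegral_mono_on ((iW.mono_set hsub).const_mul _) (hW.int.mono_set hsub)
        (meas_An n) fun x hx => ?_
      exact mul_le_mul_of_nonneg_right (ls_An hx).1 (sq_nonneg _)
    have h9 : v ^ 2 / (4 * C) ≤ ∫ x in An n, W x ^ 2 := by
      rw [div_le_iff₀ (by positivity)]
      linarith
    have h10 : (n : ℝ) * (v ^ 2 / (4 * C)) = c ^ 2 / (4 * C) * (n : ℝ) ^ (-(1 / 2) : ℝ) := by
      have e : (n : ℝ) ^ (-(1 / 2) : ℝ) = n * (n : ℝ) ^ (-(3 / 2) : ℝ) := by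
        have : (n : ℝ) * (n : ℝ) ^ (-(3 / 2) : ℝ) = (n : ℝ) ^ (1 : ℝ) * (n : ℝ) ^ (-(3 / 2) : ℝ) := by
          rw [Real.rpow_one]
        rw [this, ← Real.rpow_add hn0]
        norm_num
      rw [e, hv2]
      ring
    rw [← h10]
    exact (mul_le_mul_of_nonneg_left h9 hn0.le).trans h8
  -- the sum over the even numbers
  have hsum : Summable fun k : ℕ => ∫ x in An (2 * (k + 12)), ls x * W x ^ 2 := by
    have hU : (⋃ k : ℕ, An (2 * (k + 12))) ⊆ Dc 21 := by
      intro x hx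
      obtain ⟨k, hk⟩ := mem_iUnion.1 hx
      exact An_sub (by omega) hk
    exact (hasSum_integral_iUnion (fun k => meas_An _)
      (fun k l hkl => An_disj (fun he => hkl (by omega))) (hW.int.mono_set hU)).summable
  have hdiv : Summable fun k : ℕ => c ^ 2 / (4 * C) * ((2 * (k + 12) : ℕ) : ℝ) ^ (-(1 / 2) : ℝ) := by
    have htend : Tendsto (fun k : ℕ => 2 * (k + 12)) atTop atTop :=
      tendsto_atTop_mono (fun k => (by omega : k ≤ 2 * (k + 12))) tendsto_id
    have h3 := htend.eventually low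
    refine Summable.of_norm_bounded_eventually_nat hsum ?_
    filter_upwards [h3] with k hk
    rw [Real.norm_eq_abs, abs_of_nonneg (by positivity)]
    exact hk
  have hdiv2 : Summable fun k : ℕ => ((k + 12 : ℕ) : ℝ) ^ (-(1 / 2) : ℝ) := by
    have hne : c ^ 2 / (4 * C) * (2 : ℝ) ^ (-(1 / 2) : ℝ) ≠ 0 := by positivity
    have e : (fun k : ℕ => c ^ 2 / (4 * C) * ((2 * (k + 12) : ℕ) : ℝ) ^ (-(1 / 2) : ℝ)) =
        fun k : ℕ => c ^ 2 / (4 * C) * (2 : ℝ) ^ (-(1 / 2) : ℝ) *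
          ((k + 12 : ℕ) : ℝ) ^ (-(1 / 2) : ℝ) := by
      funext k
      have h4 : ((2 * (k + 12) : ℕ) : ℝ) = 2 * ((k + 12 : ℕ) : ℝ) := by push_cast; ring
      rw [h4, Real.mul_rpow (by norm_num) (by positivity)]
      ring
    rw [e] at hdiv
    exact (summable_mul_left_iff hne).1 hdiv
  have hdiv3 : Summable fun k : ℕ => (k : ℝ) ^ (-(1 / 2) : ℝ) :=
    (summable_nat_add_iff (f := fun k : ℕ => (k : ℝ) ^ (-(1 / 2) : ℝ)) 12).1 hdiv2
  rw [Real.summable_nat_rpow] at hdiv3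
  norm_num at hdiv3

end Pool.Agent.Q217.NDNHB
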